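import Pool.Agent.Helper89.TC.Defs
import Pool.Agent.Helper63.TK.Growth

/-!
# The lower bound for the contacts
-/

set_option autoImplicit false

namespace Pool.Agent.Helper89.TC

open MvPolynomial
open Pool.Agent.Helper16 (Place IsFunctionField)
open Pool.Agent.Helper36 (step iter)
open Pool.Agent.Helper30.TP
open Pool.Agent.Helper63.TK
open Pool.Agent.Helper63.TS

variable {k K : Type} [Field k] [IsAlgClosed k] [Field K] [Algebra k K] [Algebra K ℂ]

theorem ht_lower (hK : IsFunctionField k K) {d : ℕ} {F : Fin 3 → MvPolynomial (Fin 3) K}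
    (hF : IsEndo d fun i => map (algebraMap K ℂ) (F i)) {x : Fin 3 → K} (hx : x ≠ 0) :
    ∃ C : ℤ, ∀ i n : ℕ, i ≤ n →
      (d : ℤ) ^ (n - i) * (ht k (iter F x i) - C) ≤ ht k (iter F x n) := by
  obtain ⟨C, hC0, hC⟩ := growth hK hF
  have hd : (2 : ℤ) ≤ d := by exact_mod_cast hF.two_le
  refine ⟨C, fun i n hin => ?_⟩
  have key : ∀ m : ℕ, (d : ℤ) ^ m * (ht k (iter F x i) - C) + C ≤ ht k (iter F x (i + m)) := by
    intro m
    induction m with
    | zero => simp
    | succ m ih =>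
      have h1 := (abs_le.1 (hC _ (iter_ne_zeroK hF hx (i + m)))).1
      rw [← Pool.Agent.Helper36.iter_succ] at h1
      have h2 : (d : ℤ) * ((d : ℤ) ^ m * (ht k (iter F x i) - C) + C) ≤
          d * ht k (iter F x (i + m)) := mul_le_mul_of_nonneg_left ih (by linarith)
      have h3 : 2 * C ≤ d * C := mul_le_mul_of_nonneg_right hd hC0
      rw [show i + (m + 1) = i + m + 1 by omega, pow_succ]
      have h4 : (d : ℤ) * ((d : ℤ) ^ m * (ht k (iter F x i) - C) + C) =
          (d : ℤ) ^ m * d * (ht k (iter F x i) - C) + d * C := by ring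
      linarith
  have h1 := key (n - i)
  rw [show i + (n - i) = n by omega] at h1
  linarith

theorem lower (hK : IsFunctionField k K) {d : ℕ} {F : Fin 3 → MvPolynomial (Fin 3) K}
    (hF : IsEndo d fun i => map (algebraMap K ℂ) (F i)) {x : Fin 3 → K} (hx : x ≠ 0)
    (hunb : ∀ B : ℤ, ∃ n, B < ht k (iter F x n)) {h : MvPolynomial (Fin 3) K} {D : ℕ}
    (hh : h.IsHomogeneous D) (hirr : Irreducible h)
    (hinf : {n | eval (iter F x n) h = 0}.Infinite) (B₀ : Finset (Place k K)) :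
    ∃ G : ℕ, ∀ i₀ : ℕ, ∃ (Γ : Finset ℕ) (C : ℤ) (n₁ : ℕ), Γ.card ≤ G ∧
      (∀ i ∈ Γ, i₀ ≤ i ∧ eval (iter F x i) h = 0) ∧
      ∀ n, n₁ ≤ n → eval (iter F x n) h = 0 → ∃ B : Finset (Place k K), Disjoint B B₀ ∧
        ht k (iter F x n) ≤ ∑ i ∈ Γ, ∑ b ∈ B, cl b (iter F x i) (iter F x n) + C := by
  classical
  set N : ℕ := B₀.card + 1 with hN
  refine ⟨(D ^ 2 + N + 2).choose 2, fun i₀ => ?_⟩
  have hdist := distinct_of_unbounded hK hF hx hunb
  have hne : ∀ n, iter F x n ≠ 0 := fun n => iter_ne_zeroK hF hx n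
  -- the return times after `i₀`
  have hSinf : {n | i₀ ≤ n ∧ eval (iter F x n) h = 0}.Infinite := by
    have h1 : {n | eval (iter F x n) h = 0} ⊆
        {n | i₀ ≤ n ∧ eval (iter F x n) h = 0} ∪ ↑(Finset.range i₀) := by
      intro n hn
      by_cases hi : i₀ ≤ n
      · exact Or.inl ⟨hi, hn⟩
      · exact Or.inr (by simpa using hi)
    intro hfin
    exact hinf ((hfin.union (Finset.finite_toSet _)).subset h1)
  obtain ⟨Γ, C, E, hΓS, hE, hcard, hsum⟩ := sum_ht_cross_le_card hK (x := fun n => iter F x n)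
    hSinf (fun n _ => hne n) (fun n _ n' _ hnn => hdist n n' hnn) hh hirr (fun n hn => hn.2) N
  obtain ⟨M₁, hM₁⟩ := (hE.union (Finset.finite_toSet Γ)).bddAbove
  -- the constants
  set A : ℤ := ∑ j ∈ Γ, ht k (iter F x j) with hA
  set P : ℤ := ∑ b ∈ B₀, ∑ i ∈ Γ, ∑ j ∈ Γ.erase i, cl b (iter F x i) (iter F x j) with hP
  refine ⟨Γ, C + (B₀.card : ℤ) * A + P, max i₀ (M₁ + 1), by omega,
    fun i hi => hΓS (Finset.mem_coe.2 hi), fun n hn hn0 => ?_⟩
  have hnM : M₁ < n := by omega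
  have hnE : n ∉ E := fun hc => by
    have := hM₁ (Or.inl hc)
    omega
  have hnΓ : ∀ i ∈ Γ, ¬ PEq (iter F x i) (iter F x n) := fun i hi => by
    have := hM₁ (Or.inr (Finset.mem_coe.2 hi))
    exact hdist i n (by omega)
  have h1 := hsum n ⟨by omega, hn0⟩ hnE
  have hpos : ∀ m, 0 ≤ ht k (iter F x m) := fun m => low_ht_nonneg hK (hne m)
  have hposc : ∀ i ∈ Γ, 0 ≤ ht k (crossProduct (iter F x i) (iter F x n)) := fun i hi =>
    low_ht_nonneg hK (cross_ne_zero (hne i) (hne n) (hnΓ i hi))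
  have hA0 : ∀ i ∈ Γ, ht k (iter F x i) ≤ A := fun i hi =>
    Finset.single_le_sum (f := fun j => ht k (iter F x j)) (fun j _ => hpos j) hi
  have hsupp : ∀ i ∈ Γ, (Function.support fun b : Place k K =>
      cl b (iter F x i) (iter F x n)).Finite := fun i hi =>
    cl_support hK (hne i) (hne n) (hnΓ i hi)
  -- the finite set of places
  have hUfin : (⋃ i ∈ Γ, Function.support fun b : Place k K =>
      cl b (iter F x i) (iter F x n)).Finite := by
    refine Set.Finite.biUnion (Finset.finite_toSet Γ) fun i hi => hsupp i (Finset.mem_coe.1 hi)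
  set T : Finset (Place k K) := hUfin.toFinset with hT
  refine ⟨T \ B₀, Finset.sdiff_disjoint, ?_⟩
  have hTs : ∀ i ∈ Γ, ∑ᶠ b : Place k K, cl b (iter F x i) (iter F x n) =
      ∑ b ∈ T ∪ B₀, cl b (iter F x i) (iter F x n) := by
    intro i hi
    refine finsum_eq_sum_of_support_subset _ fun b hb => ?_
    rw [Finset.coe_union]
    refine Or.inl ?_
    rw [hT, Set.Finite.coe_toFinset]
    exact Set.mem_biUnion (Finset.mem_coe.2 hi) hb
  have h2 : ∀ i ∈ Γ, ∑ b ∈ T ∪ B₀, cl b (iter F x i) (iter F x n) =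
      ht k (iter F x i) + ht k (iter F x n) - ht k (crossProduct (iter F x i) (iter F x n)) := by
    intro i hi
    rw [← hTs i hi]
    exact finsum_cl hK (hne i) (hne n) (hnΓ i hi)
  have h3 : ∑ i ∈ Γ, ∑ b ∈ T ∪ B₀, cl b (iter F x i) (iter F x n) =
      A + (Γ.card : ℤ) * ht k (iter F x n) -
        ∑ i ∈ Γ, ht k (crossProduct (iter F x i) (iter F x n)) := by
    rw [Finset.sum_congr rfl h2, Finset.sum_sub_distrib, Finset.sum_add_distrib,
      Finset.sum_const, nsmul_eq_mul]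
  have hA1 : 0 ≤ A := Finset.sum_nonneg fun j _ => hpos j
  have h4 : ∑ i ∈ Γ, ∑ b ∈ T ∪ B₀, cl b (iter F x i) (iter F x n) =
      ∑ i ∈ Γ, ∑ b ∈ T \ B₀, cl b (iter F x i) (iter F x n) +
        ∑ b ∈ B₀, ∑ i ∈ Γ, cl b (iter F x i) (iter F x n) := by
    rw [Finset.sum_comm (s := B₀), ← Finset.sum_add_distrib]
    refine Finset.sum_congr rfl fun i _ => ?_
    rw [← Finset.sdiff_union_self_eq_union, Finset.sum_union Finset.sdiff_disjoint]
  -- the places of `B₀`
  have h5 : ∀ b : Place k K, ∑ i ∈ Γ, cl b (iter F x i) (iter F x n) ≤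
      (A + ht k (iter F x n)) + ∑ i ∈ Γ, ∑ j ∈ Γ.erase i, cl b (iter F x i) (iter F x j) := by
    intro b
    refine sum_cl_le b Γ (fun i => iter F x i) (iter F x n) (fun i _ => hne i) (hne n) hnΓ
      (fun i _ j _ hij => hdist i j hij) (by linarith [hpos n]) fun i hi => ?_
    have h6 : cl b (iter F x i) (iter F x n) ≤
        ∑ᶠ b : Place k K, cl b (iter F x i) (iter F x n) := by
      by_cases hb : b ∈ T ∪ B₀
      · rw [hTs i hi]
        exact Finset.single_le_sum (f := fun b => cl b (iter F x i) (iter F x n))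
          (fun b _ => cl_nonneg b (hne i) (hne n) (hnΓ i hi)) hb
      · have h7 : cl b (iter F x i) (iter F x n) = 0 := by
          by_contra hc
          apply hb
          refine Finset.mem_union_left _ ?_
          rw [hT, Set.Finite.mem_toFinset]
          exact Set.mem_biUnion (Finset.mem_coe.2 hi) hc
        rw [h7]
        exact finsum_nonneg fun b => cl_nonneg b (hne i) (hne n) (hnΓ i hi)
    rw [finsum_cl hK (hne i) (hne n) (hnΓ i hi)] at h6
    linarith [hposc i hi, hA0 i hi]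
  have h6 : ∑ b ∈ B₀, ∑ i ∈ Γ, cl b (iter F x i) (iter F x n) ≤
      (B₀.card : ℤ) * (A + ht k (iter F x n)) + P := by
    refine (Finset.sum_le_sum fun b _ => h5 b).trans ?_
    rw [Finset.sum_add_distrib, Finset.sum_const, nsmul_eq_mul]
  have h7 : ((Γ.card : ℤ) - N) * ht k (iter F x n) =
      (Γ.card : ℤ) * ht k (iter F x n) - ((B₀.card : ℤ) + 1) * ht k (iter F x n) := by
    rw [hN]
    push_cast
    ring
  have h8 : (B₀.card : ℤ) * (A + ht k (iter F x n)) =
      (B₀.card : ℤ) * A + (B₀.card : ℤ) * ht k (iter F x n) := by ring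
  have h9 : ((B₀.card : ℤ) + 1) * ht k (iter F x n) =
      (B₀.card : ℤ) * ht k (iter F x n) + ht k (iter F x n) := by ring
  linarith

end Pool.Agent.Helper89.TC
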