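import Pool.Agent.Helper89.TC.Upper
import Pool.Agent.Helper89.TC.Lower
import Pool.Agent.Helper63.TS.Trace

/-!
# Orbits along which the derivatives collapse
-/

set_option autoImplicit false

namespace Pool.Agent.Helper89.TC

open MvPolynomial
open Pool.Agent.Helper16 (Place IsFunctionField)
open Pool.Agent.Helper36 (step iter)
open Pool.Agent.Helper30.TP
open Pool.Agent.Helper63.TK
open Pool.Agent.Helper63.TS

variable {k K : Type} [Field k] [IsAlgClosed k] [CharZero k] [Field K] [Algebra k K] [Algebra K ℂ]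

theorem collapse_dvd (hK : IsFunctionField k K) {d : ℕ} {F : Fin 3 → MvPolynomial (Fin 3) K}
    (hF : IsEndo d fun i => map (algebraMap K ℂ) (F i)) {x : Fin 3 → K} (hx : x ≠ 0)
    (hunb : ∀ B : ℤ, ∃ n, B < ht k (iter F x n)) {h : MvPolynomial (Fin 3) K} {D : ℕ}
    (hh : h.IsHomogeneous D) (hirr : Irreducible h)
    (hinf : {n | eval (iter F x n) h = 0}.Infinite)
    (hcol : ∀ m, ∃ n, (mult F (iter F x m) n).adjugate = 0) :
    ∃ l, 0 < l ∧ h ∣ (cmp F)^[l] h := by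
  classical
  by_contra hcon
  push Not at hcon
  have hnd : ∀ l, 0 < l → ¬ h ∣ (cmp F)^[l] h := hcon
  have hd : (2 : ℤ) ≤ d := by exact_mod_cast hF.two_le
  -- the bad places
  have hbad : {b : Place k K | ¬ (Good d b F ∧ gs b h = 1)}.Finite := by
    refine ((good_finite hK hF).union (formHeight_support hK hirr.ne_zero)).subset ?_
    intro b hb
    by_cases h1 : Good d b F
    · right
      rw [Function.mem_support]
      intro h2
      apply hb
      refine ⟨h1, ?_⟩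
      have h3 := formHeight_pos (b := b) hirr.ne_zero
      rw [← WithZero.exp_log h3.ne', h2, WithZero.exp_zero]
    · exact Or.inl h1
  obtain ⟨C₆, hC₆, hup⟩ := upper hK hF hx hunb hh hirr hnd hinf
  obtain ⟨G, hG⟩ := lower hK hF hx hunb hh hirr hinf hbad.toFinset
  obtain ⟨C₈, hC₈⟩ := ht_lower hK hF hx
  obtain ⟨i₀, hi₀⟩ := hunb (C₈ + G * C₆ + 1)
  obtain ⟨Γ, C, n₁, hcard, hΓ, hlow⟩ := hG i₀
  have h5 : ∀ i, ∃ C₅ : ℤ, 0 ≤ C₅ ∧ (i ∈ Γ → ∀ n, i < n →
      (mult F (iter F x i) (n - i)).adjugate = 0 → ∀ B : Finset (Place k K),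
      (∀ b ∈ B, Good d b F ∧ gs b h = 1) →
      ∑ b ∈ B, cl b (iter F x i) (iter F x n) ≤ C₆ * (d : ℤ) ^ (n - i) + C₅) := by
    intro i
    by_cases hi : i ∈ Γ
    · obtain ⟨C₅, h1, h2⟩ := hup i (hΓ i hi).2
      exact ⟨C₅, h1, fun _ => h2⟩
    · exact ⟨0, le_rfl, fun h1 => absurd h1 hi⟩
  choose C₅ hC₅ h5 using h5
  choose nc hnc using hcol
  have hadj : ∀ i m, nc i ≤ m → (mult F (iter F x i) m).adjugate = 0 := by
    intro i m hm
    obtain ⟨q, rfl⟩ := Nat.exists_eq_add_of_le hm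
    rw [mult_add, Matrix.adjugate_mul_distrib, hnc, zero_mul]
  -- a large return time
  set C' : ℤ := ∑ i ∈ Γ, C₅ i + |C| + 1 with hC'
  have hC'0 : 0 ≤ C' := by
    have h1 : 0 ≤ ∑ i ∈ Γ, C₅ i := Finset.sum_nonneg fun i _ => hC₅ i
    have := abs_nonneg C
    linarith
  obtain ⟨n, hn, hgt⟩ := hinf.exists_gt (n₁ + Γ.sup (fun i => i + nc i) + i₀ + C'.toNat)
  have hn0 : eval (iter F x n) h = 0 := hn
  have hΓn : ∀ i ∈ Γ, i + nc i < n := fun i hi => by
    have : i + nc i ≤ Γ.sup (fun i => i + nc i) := Finset.le_sup (f := fun i => i + nc i) hi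
    omega
  obtain ⟨B, hB, hlo⟩ := hlow n (by omega) hn0
  have hBg : ∀ b ∈ B, Good d b F ∧ gs b h = 1 := by
    intro b hb
    by_contra h1
    exact (Finset.disjoint_left.1 hB hb) (hbad.mem_toFinset.2 h1)
  have h7 : ∀ i ∈ Γ, ∑ b ∈ B, cl b (iter F x i) (iter F x n) ≤
      C₆ * (d : ℤ) ^ (n - i₀) + C₅ i := by
    intro i hi
    have h8 := h5 i hi n (by have := hΓn i hi; omega)
      (hadj i _ (by have := hΓn i hi; omega)) B hBg
    have h9 : (d : ℤ) ^ (n - i) ≤ (d : ℤ) ^ (n - i₀) := by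
      refine pow_le_pow_right₀ (by linarith) ?_
      have := (hΓ i hi).1
      omega
    have h10 := mul_le_mul_of_nonneg_left h9 hC₆
    linarith
  have h8 : ∑ i ∈ Γ, ∑ b ∈ B, cl b (iter F x i) (iter F x n) ≤
      G * C₆ * (d : ℤ) ^ (n - i₀) + ∑ i ∈ Γ, C₅ i := by
    refine (Finset.sum_le_sum h7).trans ?_
    rw [Finset.sum_add_distrib, Finset.sum_const, nsmul_eq_mul]
    have h9 : (Γ.card : ℤ) ≤ G := by exact_mod_cast hcard
    have h10 : 0 ≤ C₆ * (d : ℤ) ^ (n - i₀) := by positivity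
    have h11 := mul_le_mul_of_nonneg_right h9 h10
    linarith
  have h9 := hC₈ i₀ n (by omega)
  have h10 : (0 : ℤ) ≤ (d : ℤ) ^ (n - i₀) := by positivity
  have h11 : (d : ℤ) ^ (n - i₀) * (G * C₆ + 1) ≤
      (d : ℤ) ^ (n - i₀) * (ht k (iter F x i₀) - C₈) :=
    mul_le_mul_of_nonneg_left (by linarith) h10
  have h12 : C ≤ |C| := le_abs_self C
  have h13 : (d : ℤ) ^ (n - i₀) ≤ C' := by
    have h14 : (d : ℤ) ^ (n - i₀) * (G * C₆ + 1) =
        G * C₆ * (d : ℤ) ^ (n - i₀) + (d : ℤ) ^ (n - i₀) := by ring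
    linarith
  have h14 : (C'.toNat : ℤ) < (d : ℤ) ^ (n - i₀) := by
    have h15 : C'.toNat < n - i₀ := by omega
    have h16 : n - i₀ < 2 ^ (n - i₀) := Nat.lt_two_pow_self
    have h17 : ((2 ^ (n - i₀) : ℕ) : ℤ) ≤ (d : ℤ) ^ (n - i₀) := by
      push_cast
      exact pow_le_pow_left₀ (by norm_num) hd _
    have h18 : ((C'.toNat : ℕ) : ℤ) < ((2 ^ (n - i₀) : ℕ) : ℤ) := by exact_mod_cast h15.trans h16
    linarith
  have h15 : C' ≤ (C'.toNat : ℤ) := Int.self_le_toNat C'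
  linarith

end Pool.Agent.Helper89.TC
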