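import Pool.Agent.Helper89.TC.Defs
import Pool.Agent.Helper16.TW1

/-!
# Finite extensions of function fields of one variable
-/

set_option autoImplicit false

namespace Pool.Agent.Helper89.TC

open Pool.Agent.Helper16 (Place IsFunctionField)

/-- The number of poles of a transcendental function. -/
theorem Scale_finsum {k K : Type} [Field k] [Field K] [Algebra k K] [IsAlgClosed k]
    (hK : IsFunctionField k K) (a : K) (ha : Transcendental k a) :
    (Function.support fun b : Place k K => max 0 (WithZero.log (b.val a))).Finite ∧
    ∑ᶠ b : Place k K, max 0 (WithZero.log (b.val a)) =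
      (Module.finrank (IntermediateField.adjoin k {a}) K : ℤ) := by
  have ha0 : a ≠ 0 := by
    rintro rfl
    exact ha isAlgebraic_zero
  obtain ⟨S, h1, h2, -⟩ := hK.zeros a⁻¹ (Pool.Agent.Helper16.transcendental_inv ha)
  rw [Pool.Agent.Helper16.finrank_inv] at h2
  have hS : ∀ v : Place k K, v ∈ S ↔ 0 < WithZero.log (v.val a) := by
    intro v
    rw [h1, ← v.ord_pos_iff (inv_ne_zero ha0), v.ord_inv]
    show 0 < - -WithZero.log (v.val a) ↔ _
    rw [neg_neg]
  have h3 : Function.support (fun b : Place k K => max 0 (WithZero.log (b.val a))) ⊆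
      (S : Set (Place k K)) := by
    intro b hb
    rw [Finset.mem_coe, hS]
    by_contra h
    exact hb (max_eq_left (not_lt.1 h))
  refine ⟨S.finite_toSet.subset h3, ?_⟩
  rw [finsum_eq_sum_of_support_subset _ h3, ← h2]
  refine Finset.sum_congr rfl fun v hv => ?_
  have h4 : v.ord a⁻¹ = WithZero.log (v.val a) := by
    rw [v.ord_inv]
    show - -WithZero.log (v.val a) = _
    rw [neg_neg]
  rw [h4, max_eq_right ((hS v).1 hv).le, Pool.Agent.Helper30.TP.deg_eq_one hK v]
  simp

/-- Algebraic elements have no poles. -/
theorem Scale_alg {k K : Type} [Field k] [Field K] [Algebra k K]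
    (a : K) (ha : IsAlgebraic k a) (b : Place k K) :
    max 0 (WithZero.log (b.val a)) = 0 := by
  by_cases ha0 : a = 0
  · subst ha0
    simp
  · rw [b.val_eq_one_of_algebraic ha ha0]
    simp

variable {k K : Type} [Field k] [Field K] [Algebra k K] (L : Type) [Field L] [Algebra k L]
  [Algebra K L] [IsScalarTower k K L] [FiniteDimensional K L]

omit [FiniteDimensional K L] in
theorem Scale_finrank (a : K) :
    Module.finrank (IntermediateField.adjoin k {algebraMap K L a}) L =
      Module.finrank K L * Module.finrank (IntermediateField.adjoin k {a}) K := by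
  let F := IntermediateField.adjoin k {a}
  have h1 : Module.finrank F K * Module.finrank K L = Module.finrank F L :=
    Module.finrank_mul_finrank F K L
  have h2 : F.map (IsScalarTower.toAlgHom k K L) =
      IntermediateField.adjoin k {algebraMap K L a} := by
    rw [IntermediateField.adjoin_map, Set.image_singleton]
    rfl
  rw [← h2, mul_comm, h1]
  symm
  refine Algebra.finrank_eq_of_equiv_equiv
    (IntermediateField.equivMap F (IsScalarTower.toAlgHom k K L)).toRingEquiv
    (RingEquiv.refl L) ?_
  ext x
  rfl

theorem isFunctionField_of_finite (hK : IsFunctionField k K) : IsFunctionField k L := by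
  exact Pool.Agent.Helper16.IsFunctionField.of_finite hK

/-- The number of poles, with multiplicities, is multiplied by the degree. -/
theorem finsum_pos_log [IsAlgClosed k] (hK : IsFunctionField k K) (a : K) :
    (Function.support fun v : Place k L =>
      max 0 (WithZero.log (v.val (algebraMap K L a)))).Finite ∧
    ∑ᶠ v : Place k L, max 0 (WithZero.log (v.val (algebraMap K L a))) =
      (Module.finrank K L : ℤ) * ∑ᶠ b : Place k K, max 0 (WithZero.log (b.val a)) := by
  by_cases ha : IsAlgebraic k a
  · have h1 : IsAlgebraic k (algebraMap K L a) := ha.algebraMap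
    have h2 : (fun v : Place k L => max 0 (WithZero.log (v.val (algebraMap K L a)))) =
        fun _ => 0 := funext fun v => Scale_alg _ h1 v
    have h3 : (fun v : Place k K => max 0 (WithZero.log (v.val a))) =
        fun _ => 0 := funext fun v => Scale_alg _ ha v
    rw [h2, h3]
    simp
  · have h1 : Transcendental k (algebraMap K L a) := by
      intro h
      exact ha ((isAlgebraic_algebraMap_iff (algebraMap K L).injective).1 h)
    obtain ⟨h2, h3⟩ := Scale_finsum (isFunctionField_of_finite L hK) _ h1
    obtain ⟨-, h4⟩ := Scale_finsum hK a ha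
    refine ⟨h2, ?_⟩
    rw [h3, h4, Scale_finrank]
    push_cast
    rfl

end Pool.Agent.Helper89.TC
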