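import Pool.Agent.Helper89.TC.FinA

/-!
# The intersection of two curves: the points
-/

set_option autoImplicit false

namespace Pool.Agent.Helper89.TC

open MvPolynomial
open Pool.Agent.Helper30.TP

/-- The degrees of the residue fields of a finite algebra. -/
theorem sum_finrank_maximal {K A : Type} [Field K] [CommRing A] [Algebra K A]
    [FiniteDimensional K A] :
    ∃ _ : Fintype (MaximalSpectrum A),
      ∑ m : MaximalSpectrum A, Module.finrank K (A ⧸ m.asIdeal) ≤ Module.finrank K A := by
  have : IsArtinianRing A := IsArtinianRing.of_finite K A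
  have : Fintype (MaximalSpectrum A) := Fintype.ofFinite _
  refine ⟨inferInstance, ?_⟩
  rw [← Module.finrank_pi_fintype K]
  let f : A →ₗ[K] (∀ m : MaximalSpectrum A, A ⧸ m.asIdeal) :=
    LinearMap.pi fun m => (Ideal.Quotient.mkₐ K m.asIdeal).toLinearMap
  have hf : Function.Surjective f := by
    intro x
    obtain ⟨r, hr⟩ := Ideal.pi_quotient_surjective
      (I := fun m : MaximalSpectrum A => m.asIdeal)
      (fun m n hmn => Ideal.isCoprime_of_isMaximal fun h => hmn (MaximalSpectrum.ext h)) x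
    refine ⟨r, funext fun m => ?_⟩
    exact hr m
  exact LinearMap.finrank_le_finrank_of_surjective hf

/-- The point over the residue field of a maximal ideal of a chart. -/
noncomputable def finB_pt (k : Type) {K : Type} [Field k] [Field K] [Algebra k K]
    (I : Ideal (MvPolynomial (Fin 3) K))
    [FiniteDimensional K (MvPolynomial (Fin 3) K ⧸ I)] (p : Fin 3) (hp : X p - 1 ∈ I)
    (m : MaximalSpectrum (MvPolynomial (Fin 3) K ⧸ I)) : FinPt k K :=
  haveI := m.isMaximal
  letI : Field ((MvPolynomial (Fin 3) K ⧸ I) ⧸ m.asIdeal) := Ideal.Quotient.field m.asIdeal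
  letI : Algebra k ((MvPolynomial (Fin 3) K ⧸ I) ⧸ m.asIdeal) :=
    ((algebraMap K ((MvPolynomial (Fin 3) K ⧸ I) ⧸ m.asIdeal)).comp (algebraMap k K)).toAlgebra
  { L := (MvPolynomial (Fin 3) K ⧸ I) ⧸ m.asIdeal
    fld := inferInstance
    algk := inferInstance
    alg := inferInstance
    tow := IsScalarTower.of_algebraMap_eq fun _ => rfl
    fin := inferInstance
    y := fun i => Ideal.Quotient.mk m.asIdeal (Ideal.Quotient.mk I (X i))
    ne := by
      intro h
      have h1 := congrFun h p
      have h2 : Ideal.Quotient.mk I (X p) = 1 := by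
        rw [← sub_eq_zero, ← map_one (Ideal.Quotient.mk I), ← map_sub]
        exact Ideal.Quotient.eq_zero_iff_mem.2 hp
      rw [h2, map_one] at h1
      exact one_ne_zero h1 }

theorem exists_points {k K : Type} [Field k] [Field K] [Algebra k K]
    {g g' : MvPolynomial (Fin 3) K} {a b : ℕ} (hg : g.IsHomogeneous a)
    (hg' : g'.IsHomogeneous b) (hirr : Irreducible g) (hnd : ¬ g ∣ g') :
    ∃ (s : ℕ) (A : Fin s → FinPt k K), ∑ j, Module.finrank K (A j).L ≤ 3 * (a * b) ∧
      ∀ (K' : Type) [Field K'] [Algebra K K'] (u : Fin 3 → K'), u ≠ 0 → aeval u g = 0 →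
        aeval u g' = 0 →
        ∃ (j : Fin s) (σ : (A j).L →ₐ[K] K') (c : K'), c ≠ 0 ∧
          u = fun i => c * σ ((A j).y i) := by
  classical
  let I : Fin 3 → Ideal (MvPolynomial (Fin 3) K) := fun p =>
    Ideal.span ({g, g', X p - 1} : Set (MvPolynomial (Fin 3) K))
  have hI : ∀ p, X p - 1 ∈ I p := fun p => Ideal.subset_span (by simp)
  have hfd : ∀ p, FiniteDimensional K (MvPolynomial (Fin 3) K ⧸ I p) := fun p =>
    (finrank_chart hg hg' hirr hnd p).1
  have hle : ∀ p, Module.finrank K (MvPolynomial (Fin 3) K ⧸ I p) ≤ a * b := fun p =>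
    (finrank_chart hg hg' hirr hnd p).2
  choose inst hsum using fun p : Fin 3 =>
    sum_finrank_maximal (K := K) (A := MvPolynomial (Fin 3) K ⧸ I p)
  let e := Fintype.equivFin (Σ p : Fin 3, MaximalSpectrum (MvPolynomial (Fin 3) K ⧸ I p))
  refine ⟨Fintype.card (Σ p : Fin 3, MaximalSpectrum (MvPolynomial (Fin 3) K ⧸ I p)),
    fun j => finB_pt k (I (e.symm j).1) (e.symm j).1 (hI _) (e.symm j).2, ?_, ?_⟩
  · have h1 := Equiv.sum_comp e.symm
      (fun q : Σ p : Fin 3, MaximalSpectrum (MvPolynomial (Fin 3) K ⧸ I p) =>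
        Module.finrank K (finB_pt k (I q.1) q.1 (hI _) q.2).L)
    refine h1.le.trans ?_
    rw [Fintype.sum_sigma]
    calc ∑ p : Fin 3, ∑ m : MaximalSpectrum (MvPolynomial (Fin 3) K ⧸ I p),
          Module.finrank K (finB_pt k (I p) p (hI _) m).L
        ≤ ∑ p : Fin 3, a * b := Finset.sum_le_sum fun p _ => (hsum p).trans (hle p)
      _ = 3 * (a * b) := by simp
  · intro K' _ _ u hu hug hug'
    obtain ⟨p, hp⟩ : ∃ p, u p ≠ 0 := by
      by_contra hcon
      push Not at hcon
      exact hu (funext hcon)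
    let φ : MvPolynomial (Fin 3) K →ₐ[K] K' := aeval fun i => u i / u p
    have hφ : ∀ {q : MvPolynomial (Fin 3) K} {n : ℕ}, q.IsHomogeneous n → aeval u q = 0 →
        φ q = 0 := by
      intro q n hq h0
      have h1 : (fun i => u i / u p) = (u p)⁻¹ • u := by
        funext i
        rw [Pi.smul_apply, smul_eq_mul, div_eq_inv_mul]
      have h2 : φ q = (u p)⁻¹ ^ n * aeval u q := by
        change aeval (fun i => u i / u p) q = _
        rw [h1]
        exact aeval_smul_hom hq _ _
      rw [h2, h0, mul_zero]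
    have hφI : ∀ x ∈ I p, φ x = 0 := by
      have h1 : I p ≤ RingHom.ker φ.toRingHom := by
        rw [Ideal.span_le]
        rintro x (rfl | rfl | rfl)
        · exact hφ hg hug
        · exact hφ hg' hug'
        · change φ (X p - 1) = 0
          rw [map_sub, map_one, aeval_X, div_self hp, sub_self]
      exact fun x hx => h1 hx
    let ψ : (MvPolynomial (Fin 3) K ⧸ I p) →ₐ[K] K' := Ideal.Quotient.liftₐ (I p) φ hφI
    have : IsArtinianRing (MvPolynomial (Fin 3) K ⧸ I p) := IsArtinianRing.of_finite K _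
    have : (RingHom.ker ψ.toRingHom).IsPrime := RingHom.ker_isPrime _
    let m : MaximalSpectrum (MvPolynomial (Fin 3) K ⧸ I p) :=
      ⟨RingHom.ker ψ.toRingHom, IsArtinianRing.isMaximal_of_isPrime _⟩
    let q : Σ p : Fin 3, MaximalSpectrum (MvPolynomial (Fin 3) K ⧸ I p) := ⟨p, m⟩
    have key : ∃ (σ : (finB_pt k (I q.1) q.1 (hI _) q.2).L →ₐ[K] K') (c : K'), c ≠ 0 ∧
          u = fun i => c * σ ((finB_pt k (I q.1) q.1 (hI _) q.2).y i) := by
      refine ⟨Ideal.Quotient.liftₐ m.asIdeal ψ fun x hx => hx, u p, hp, ?_⟩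
      funext i
      have h3 : (Ideal.Quotient.liftₐ m.asIdeal ψ fun x hx => hx)
          (Ideal.Quotient.mk m.asIdeal (Ideal.Quotient.mk (I p) (X i))) = u i / u p := by
        change φ (X i) = u i / u p
        exact aeval_X _ i
      change u i = u p * (Ideal.Quotient.liftₐ m.asIdeal ψ fun x hx => hx)
          (Ideal.Quotient.mk m.asIdeal (Ideal.Quotient.mk (I p) (X i)))
      rw [h3, mul_div_cancel₀ _ hp]
    have h4 : e.symm (e q) = q := e.symm_apply_apply q
    refine ⟨e q, ?_⟩
    rw [← h4] at key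
    exact key

end Pool.Agent.Helper89.TC
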