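import Pool.Agent.Helper89.TC.Periodic

/-!
# The orbit of a periodic point and the curve
-/

set_option autoImplicit false

namespace Pool.Agent.Helper89.TC

open MvPolynomial
open Pool.Agent.Helper16 (Place IsFunctionField)
open Pool.Agent.Helper36 (step iter)
open Pool.Agent.Helper30.TP
open Pool.Agent.Helper63.TK
open Pool.Agent.Helper63.TS

variable {k K : Type} [Field k] [IsAlgClosed k] [Field K] [Algebra k K] [Algebra K ℂ]

theorem exists_count_bound (hK : IsFunctionField k K) {d : ℕ}
    {F : Fin 3 → MvPolynomial (Fin 3) K} (hF : IsEndo d fun i => map (algebraMap K ℂ) (F i))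
    {h : MvPolynomial (Fin 3) K} {D : ℕ} (hh : h.IsHomogeneous D) :
    ∃ C : ℤ, 0 ≤ C ∧ ∀ (L : Type) [Field L] [Algebra k L] [Algebra K L] [IsScalarTower k K L]
      [FiniteDimensional K L] (w : Fin 3 → L) (N : ℕ) (γ : L), w ≠ 0 → 0 < N →
      iter F w N = γ • w → ∀ l, aeval (iter F w l) h ≠ 0 →
      (Function.support fun v : Place k L =>
        countG D (map (algebraMap K L) h) (iter F w l) v).Finite ∧
      (∀ v : Place k L, 0 ≤ countG D (map (algebraMap K L) h) (iter F w l) v) ∧
      ∑ᶠ v : Place k L, countG D (map (algebraMap K L) h) (iter F w l) v ≤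
        C * (Module.finrank K L : ℤ) := by
  obtain ⟨C1, hC1, h1⟩ := exists_ht_bound hK hF
  obtain ⟨C2, hC2, h2⟩ := exists_gs_bound hK h
  refine ⟨D * C1 + C2, by positivity, ?_⟩
  intro L _ _ _ _ _ w N γ hw hN hper l hl
  have hKL : IsFunctionField k L := isFunctionField_of_finite L hK
  set y := iter F w l with hy
  set P := map (algebraMap K L) h with hP
  have hev : eval y P = aeval y h := by
    rw [hP, eval_map]
    rfl
  have hyP : eval y P ≠ 0 := by
    rw [hev]
    exact hl
  have hP0 : P ≠ 0 := by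
    intro h0
    apply hyP
    rw [h0, map_zero]
  have hPh : P.IsHomogeneous D := hh.map _
  have hy0 : y ≠ 0 := iter_ne_zeroL hF hw l
  obtain ⟨h3, h4⟩ := countG_finsum (e := D) hKL hP0 hy0 hyP
  refine ⟨h3, fun v => countG_nonneg hPh v hyP, ?_⟩
  rw [h4]
  have hhom : ∀ i, (F i).IsHomogeneous d := homog_of_endo hF
  have hper' : iter F y N = γ ^ d ^ l • y := by
    have h5 : iter F y N = iter F (iter F w N) l := by
      rw [hy]
      unfold iter
      rw [← Function.iterate_add_apply, ← Function.iterate_add_apply, add_comm]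
    rw [h5, hper, iter_smulL hhom]
  have h5 := h1 L y N _ hy0 hN hper'
  obtain ⟨h6, h7⟩ := h2 L
  have h8 : hf k P ≤ ∑ᶠ v : Place k L, max 0 (WithZero.log (gs v P)) := by
    unfold hf
    refine finsum_le_finsum' ?_ h6 fun v => le_max_right _ _
    exact formHeight_support hKL hP0
  have h9 : (D : ℤ) * ht k y ≤ D * (C1 * (Module.finrank K L : ℤ)) :=
    mul_le_mul_of_nonneg_left h5 (by positivity)
  calc (D : ℤ) * ht k y + hf k P ≤ D * (C1 * (Module.finrank K L : ℤ)) +
        C2 * (Module.finrank K L : ℤ) := add_le_add h9 (h8.trans h7)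
    _ = (D * C1 + C2) * (Module.finrank K L : ℤ) := by ring

/-- Comparison of a sum over places of `K` and a sum over places of `L`. -/
theorem sum_le_finsum {L : Type} [Field L] [Algebra k L] [Algebra K L] (B : Finset (Place k K))
    (ρ : Place k K → ℤ) (vb : Place k K → Place k L)
    (hext : ∀ b ∈ B, ∀ a : K, (vb b).val (algebraMap K L a) = b.val a) (G : Place k L → ℤ)
    (hG : ∀ v, 0 ≤ G v) (hs : (Function.support G).Finite) (hρ : ∀ b ∈ B, ρ b ≤ G (vb b)) :
    ∑ b ∈ B, ρ b ≤ ∑ᶠ v : Place k L, G v := by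
  classical
  have hinj : ∀ b ∈ B, ∀ b' ∈ B, vb b = vb b' → b = b' := by
    intro b hb b' hb' h
    have h1 : b.val = b'.val := by
      ext a
      rw [← hext b hb a, ← hext b' hb' a, h]
    cases b
    cases b'
    simp only at h1
    subst h1
    rfl
  have h1 : ∑ b ∈ B, ρ b ≤ ∑ v ∈ B.image vb, G v := by
    rw [Finset.sum_image hinj]
    exact Finset.sum_le_sum hρ
  refine h1.trans ?_
  rw [finsum_eq_sum_of_support_subset (s := hs.toFinset ∪ B.image vb) _ (by
    intro v hv
    rw [Finset.mem_coe, Finset.mem_union]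
    exact Or.inl (hs.mem_toFinset.2 hv))]
  exact Finset.sum_le_sum_of_subset_of_nonneg Finset.subset_union_right fun v _ _ => hG v

end Pool.Agent.Helper89.TC
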