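import Pool.Agent.Helper89.TC.Defs
import Pool.Agent.Helper63.TK.Good2
import Pool.Agent.Helper63.TS.Normal

/-!
# Contraction of the residue disc of a superattracting point
-/

set_option autoImplicit false

namespace Pool.Agent.Helper89.TC

open MvPolynomial
open Pool.Agent.Helper16 (Place IsFunctionField)
open Pool.Agent.Helper36 (step iter)
open Pool.Agent.Helper30.TP
open Pool.Agent.Helper63.TK
open Pool.Agent.Helper63.TS

namespace ContrAux

/-- Taylor expansion of first order of a polynomial with constant coefficients at an integral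
point. -/
theorem taylor_const {k K : Type} [Field k] [Field K] [Algebra k K] (b : Place k K)
    {u δ : Fin 3 → K} (hu : ∀ a, b.val (u a) ≤ 1)
    {ε : WithZero (Multiplicative ℤ)} (hε : ε ≤ 1) (hδ : ∀ a, b.val (δ a) ≤ ε)
    (P : MvPolynomial (Fin 3) k) :
    b.val (aeval u P) ≤ 1 ∧
      b.val (aeval (fun i => u i + δ i) P - aeval u P - ∑ j, aeval u (pderiv j P) * δ j) ≤
        ε ^ 2 := by
  have hu' : ∀ i, b.val (u i + δ i) ≤ 1 := fun i =>
    (b.val.map_add _ _).trans (max_le (hu i) ((hδ i).trans hε))
  induction P using MvPolynomial.induction_on with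
  | C a =>
    refine ⟨?_, ?_⟩
    · rw [aeval_C]; exact b.val_algebraMap_le _
    · simp
  | add p q hp hq =>
    refine ⟨?_, ?_⟩
    · rw [map_add]
      exact (b.val.map_add _ _).trans (max_le hp.1 hq.1)
    · have e : aeval (fun i => u i + δ i) (p + q) - aeval u (p + q) -
          ∑ j, aeval u (pderiv j (p + q)) * δ j =
          (aeval (fun i => u i + δ i) p - aeval u p - ∑ j, aeval u (pderiv j p) * δ j) +
          (aeval (fun i => u i + δ i) q - aeval u q - ∑ j, aeval u (pderiv j q) * δ j) := by
        simp only [map_add, add_mul, Finset.sum_add_distrib]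
        ring
      rw [e]
      exact (b.val.map_add _ _).trans (max_le hp.2 hq.2)
  | mul_X p i hp =>
    refine ⟨?_, ?_⟩
    · rw [map_mul, aeval_X, map_mul]
      exact mul_le_one' hp.1 (hu i)
    · set A := aeval (fun i => u i + δ i) p with hA
      set L := ∑ j, aeval u (pderiv j p) * δ j with hL
      set c := aeval u p with hc
      have e1 : ∑ j, aeval u (pderiv j (p * X i)) * δ j = L * u i + c * δ i := by
        have h1 : ∀ j, aeval u (pderiv j (p * X i)) * δ j =
            (aeval u (pderiv j p) * δ j) * u i + c * (if j = i then δ i else 0) := by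
          intro j
          rw [Derivation.leibniz, pderiv_X]
          rcases eq_or_ne j i with h | h
          · subst h
            rw [if_pos rfl, Pi.single_eq_same]
            simp only [smul_eq_mul, map_add, map_mul, aeval_X, mul_one]
            rw [hc]; ring
          · rw [if_neg h, Pi.single_eq_of_ne (Ne.symm h)]
            simp only [smul_eq_mul, map_add, map_mul, aeval_X, map_zero, mul_zero]
            ring
        rw [Finset.sum_congr rfl fun j _ => h1 j, Finset.sum_add_distrib, ← Finset.sum_mul,
          ← Finset.mul_sum, Finset.sum_ite_eq' Finset.univ i, if_pos (Finset.mem_univ i)]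
      have e : aeval (fun i => u i + δ i) (p * X i) - aeval u (p * X i) -
          ∑ j, aeval u (pderiv j (p * X i)) * δ j =
          (A - c - L) * (u i + δ i) + L * δ i := by
        rw [e1, map_mul, map_mul, aeval_X, aeval_X]
        ring
      rw [e]
      refine (b.val.map_add _ _).trans (max_le ?_ ?_)
      · rw [map_mul]
        calc _ ≤ ε ^ 2 * 1 := mul_le_mul' hp.2 (hu' i)
          _ = ε ^ 2 := mul_one _
      · have hd : ∀ q : MvPolynomial (Fin 3) k, b.val (aeval u q) ≤ 1 := by
          intro q
          rw [← eval_map_k, eval_eq]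
          refine b.val.map_sum_le fun m _ => ?_
          rw [map_mul, map_prod]
          refine mul_le_one' ?_ (Finset.prod_le_one' fun l _ => ?_)
          · rw [coeff_map]; exact b.val_algebraMap_le _
          · rw [map_pow]; exact pow_le_one' (hu l) _
        have hL1 : b.val L ≤ ε := by
          refine b.val.map_sum_le fun j _ => ?_
          rw [map_mul]
          calc _ ≤ 1 * ε := mul_le_mul' (hd _) (hδ j)
            _ = ε := one_mul _
        rw [map_mul, pow_two]
        exact mul_le_mul' hL1 (hδ i)

/-- A polynomial is a combination of monomials with constant coefficients. -/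
theorem exists_sum {k K : Type} [Field k] [Field K] [Algebra k K] (b : Place k K)
    {P : MvPolynomial (Fin 3) K} (hP : ∀ m, b.val (P.coeff m) ≤ 1) :
    ∃ (s : Finset (Fin 3 →₀ ℕ)) (c : (Fin 3 →₀ ℕ) → K), (∀ m, b.val (c m) ≤ 1) ∧
      P = ∑ m ∈ s, C (c m) * map (algebraMap k K) (monomial m (1 : k)) := by
  refine ⟨P.support, fun m => P.coeff m, hP, ?_⟩
  have h1 := P.as_sum
  conv_lhs => rw [h1]
  refine Finset.sum_congr rfl fun m _ => ?_
  rw [map_monomial, map_one, C_mul_monomial, mul_one]

/-- Taylor expansion of first order at an integral point. -/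
theorem taylor {k K : Type} [Field k] [Field K] [Algebra k K] (b : Place k K)
    {P : MvPolynomial (Fin 3) K} (hP : ∀ m, b.val (P.coeff m) ≤ 1)
    {u δ : Fin 3 → K} (hu : ∀ a, b.val (u a) ≤ 1)
    {ε : WithZero (Multiplicative ℤ)} (hε : ε ≤ 1) (hδ : ∀ a, b.val (δ a) ≤ ε) :
    b.val (eval (fun i => u i + δ i) P - eval u P - ∑ j, eval u (pderiv j P) * δ j) ≤ ε ^ 2 := by
  obtain ⟨s, c, hc, rfl⟩ := exists_sum b hP
  have e : eval (fun i => u i + δ i) (∑ m ∈ s, C (c m) * map (algebraMap k K)
        (monomial m (1 : k))) - eval u (∑ m ∈ s, C (c m) * map (algebraMap k K)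
        (monomial m (1 : k))) - ∑ j, eval u (pderiv j (∑ m ∈ s, C (c m) *
        map (algebraMap k K) (monomial m (1 : k)))) * δ j =
      ∑ m ∈ s, c m * (aeval (fun i => u i + δ i) (monomial m (1 : k)) -
        aeval u (monomial m (1 : k)) - ∑ j, aeval u (pderiv j (monomial m (1 : k))) * δ j) := by
    have h1 : ∀ j, eval u (pderiv j (∑ m ∈ s, C (c m) *
        map (algebraMap k K) (monomial m (1 : k)))) * δ j =
        ∑ m ∈ s, c m * (aeval u (pderiv j (monomial m (1 : k))) * δ j) := by
      intro j
      rw [map_sum, map_sum, Finset.sum_mul]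
      refine Finset.sum_congr rfl fun m _ => ?_
      rw [pderiv_C_mul, pderiv_map, map_mul, eval_C, eval_map_k, mul_assoc]
    rw [Finset.sum_congr rfl fun j _ => h1 j, Finset.sum_comm, map_sum, map_sum,
      ← Finset.sum_sub_distrib, ← Finset.sum_sub_distrib]
    refine Finset.sum_congr rfl fun m _ => ?_
    rw [map_mul, map_mul, eval_C, eval_C, eval_map_k, eval_map_k, ← Finset.mul_sum]
    ring
  rw [e]
  refine b.val.map_sum_le fun m _ => ?_
  rw [map_mul]
  calc _ ≤ 1 * ε ^ 2 := mul_le_mul' (hc m) (taylor_const b hu hε hδ _).2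
    _ = ε ^ 2 := one_mul _

theorem val_eval_le {k K : Type} [Field k] [Field K] [Algebra k K] (b : Place k K)
    {P : MvPolynomial (Fin 3) K} (hP : ∀ m, b.val (P.coeff m) ≤ 1) {u : Fin 3 → K}
    (hu : ∀ a, b.val (u a) ≤ 1) : b.val (eval u P) ≤ 1 := by
  rw [eval_eq]
  refine b.val.map_sum_le fun m _ => ?_
  rw [map_mul, map_prod]
  refine mul_le_one' (hP m) (Finset.prod_le_one' fun l _ => ?_)
  rw [map_pow]
  exact pow_le_one' (hu l) _

theorem val_pderiv_le {k K : Type} [Field k] [Field K] [Algebra k K] (b : Place k K)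
    {P : MvPolynomial (Fin 3) K} (hP : ∀ m, b.val (P.coeff m) ≤ 1) (j : Fin 3)
    (m : Fin 3 →₀ ℕ) : b.val ((pderiv j P).coeff m) ≤ 1 := by
  rw [coeff_pderiv]
  have h2 : ((m j : K) + 1) = algebraMap k K ((m j : k) + 1) := by simp
  rw [h2, map_mul]
  exact mul_le_one' (hP _) (b.val_algebraMap_le _)

/-- A matrix with vanishing adjugate which does not kill `z` has rank one. -/
theorem rank_one {k : Type} [Field k] {M : Matrix (Fin 3) (Fin 3) k} (hadj : M.adjugate = 0)
    {z : Fin 3 → k} {c : k} (hc : c ≠ 0) (hM : M.mulVec z = c • z) {p : Fin 3} (hz : z p = 1)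
    (a j : Fin 3) : M a j = z a * M p j := by
  have hmin : ∀ a b j : Fin 3, M a j * (∑ i, M b i * z i) = M b j * (∑ i, M a i * z i) := by
    have h := Matrix.adjugate_fin_three M
    rw [hadj] at h
    have h00 := congrFun (congrFun h 0) 0
    have h01 := congrFun (congrFun h 0) 1
    have h02 := congrFun (congrFun h 0) 2
    have h10 := congrFun (congrFun h 1) 0
    have h11 := congrFun (congrFun h 1) 1
    have h12 := congrFun (congrFun h 1) 2
    have h20 := congrFun (congrFun h 2) 0
    have h21 := congrFun (congrFun h 2) 1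
    have h22 := congrFun (congrFun h 2) 2
    simp only [Matrix.zero_apply, Matrix.of_apply, Matrix.cons_val_zero, Matrix.cons_val_one,
      Matrix.cons_val] at h00 h01 h02 h10 h11 h12 h20 h21 h22
    intro a b j
    rw [Fin.sum_univ_three, Fin.sum_univ_three]
    fin_cases a <;> fin_cases b <;> fin_cases j <;>
      simp only [Fin.zero_eta, Fin.mk_one, Fin.reduceFinMk]
    · linear_combination -z 1 * h22 + z 2 * h12
    · linear_combination z 0 * h22 - z 2 * h02
    · linear_combination -z 0 * h12 + z 1 * h02
    · linear_combination z 1 * h21 - z 2 * h11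
    · linear_combination -z 0 * h21 + z 2 * h01
    · linear_combination z 0 * h11 - z 1 * h01
    · linear_combination z 1 * h22 - z 2 * h12
    · linear_combination -z 0 * h22 + z 2 * h02
    · linear_combination z 0 * h12 - z 1 * h02
    · linear_combination -z 1 * h20 + z 2 * h10
    · linear_combination z 0 * h20 - z 2 * h00
    · linear_combination -z 0 * h10 + z 1 * h00
    · linear_combination -z 1 * h21 + z 2 * h11
    · linear_combination z 0 * h21 - z 2 * h01
    · linear_combination -z 0 * h11 + z 1 * h01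
    · linear_combination z 1 * h20 - z 2 * h10
    · linear_combination -z 0 * h20 + z 2 * h00
    · linear_combination z 0 * h10 - z 1 * h00
  have h1 : ∀ b, ∑ i, M b i * z i = c * z b := fun b => congrFun hM b
  have h2 := hmin a p j
  rw [h1, h1, hz, mul_one] at h2
  have h3 : c * (M a j - z a * M p j) = 0 := by linear_combination h2
  rcases mul_eq_zero.1 h3 with h4 | h4
  · exact absurd h4 hc
  · exact sub_eq_zero.1 h4

theorem le_exp_of_lt_one {x : WithZero (Multiplicative ℤ)} (h : x < 1) :
    x ≤ WithZero.exp (-1 : ℤ) := by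
  rcases eq_or_ne x 0 with h0 | h0
  · rw [h0]; exact zero_le
  · have h1 : WithZero.log x < 0 := (WithZero.log_lt_iff_lt_exp h0).2 (by simpa using h)
    exact WithZero.le_exp_of_log_le (by omega)

end ContrAux

open ContrAux

/-- Integral polynomials are Lipschitz on integral points. -/
theorem val_eval_sub_le {k K : Type} [Field k] [Field K] [Algebra k K] (b : Place k K)
    {P : MvPolynomial (Fin 3) K} (hP : ∀ m, b.val (P.coeff m) ≤ 1) {u u' : Fin 3 → K}
    (hu : ∀ a, b.val (u a) ≤ 1) (hu' : ∀ a, b.val (u' a) ≤ 1)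
    {ε : WithZero (Multiplicative ℤ)} (hd : ∀ a, b.val (u a - u' a) ≤ ε) :
    b.val (eval u P - eval u' P) ≤ ε := by
  rcases le_total ε 1 with h | h
  · have h1 := taylor b hP hu' h (δ := fun a => u a - u' a) hd
    have h2 : (fun i => u' i + (u i - u' i)) = u := by funext i; ring
    rw [h2] at h1
    have h3 : eval u P - eval u' P =
        (eval u P - eval u' P - ∑ j, eval u' (pderiv j P) * (u j - u' j)) +
          ∑ j, eval u' (pderiv j P) * (u j - u' j) := by ring
    rw [h3]
    refine (b.val.map_add _ _).trans (max_le (h1.trans ?_) ?_)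
    · rw [pow_two]
      calc ε * ε ≤ 1 * ε := mul_le_mul' h le_rfl
        _ = ε := one_mul _
    · refine b.val.map_sum_le fun j _ => ?_
      rw [map_mul]
      calc _ ≤ 1 * ε := mul_le_mul' (val_eval_le b (val_pderiv_le b hP j) hu') (hd j)
        _ = ε := one_mul _
  · exact (b.val.map_sub _ _).trans
      (max_le ((val_eval_le b hP hu).trans h) ((val_eval_le b hP hu').trans h))

variable {k K : Type} [Field k] [IsAlgClosed k] [CharZero k] [Field K] [Algebra k K]

/-- The normalised image has the same reduction. -/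
theorem contr_red {d : ℕ} {b : Place k K} {F : Fin 3 → MvPolynomial (Fin 3) K}
    {f : Fin 3 → MvPolynomial (Fin 3) k} (hF : ∀ i, (F i).IsHomogeneous d)
    (hf : GoodRed d b F f) {z : Fin 3 → k} {p : Fin 3} (hz : z p = 1) {N : ℕ} {γ : k}
    (hper : iter f z N = γ • z) {u : Fin 3 → K}
    (hu : ∀ a, b.val (u a - algebraMap k K (z a)) < 1) :
    b.val (iter F u N p) = 1 ∧
      ∀ a, b.val (iter F u N a / iter F u N p - algebraMap k K (z a)) < 1 := by
  have hz0 : z ≠ 0 := by
    intro h
    rw [h] at hz
    exact zero_ne_one hz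
  have hγ : γ ≠ 0 := by
    intro h
    have h1 : iter f z N ≠ 0 := Pool.Agent.Helper30.TP.iter_ne_zero hf.endo hz0 N
    rw [hper, h, zero_smul] at h1
    exact h1 rfl
  have h1 : ∀ a, b.val (iter F u N a - algebraMap k K (γ * z a)) < 1 := by
    intro a
    have h2 := (redP_itF hf.red N a).eval hu
    rw [eval_itF, eval_itF, hper] at h2
    exact h2
  have hp : b.val (iter F u N p) = 1 := by
    have h2 := h1 p
    rw [hz, mul_one] at h2
    have h3 : iter F u N p = (iter F u N p - algebraMap k K γ) + algebraMap k K γ := by ring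
    rw [h3, b.val.map_add_eq_of_lt_right (by rw [b.triv γ hγ]; exact h2), b.triv γ hγ]
  refine ⟨hp, fun a => ?_⟩
  have hp0 : iter F u N p ≠ 0 := by
    intro h
    rw [h, map_zero] at hp
    exact zero_ne_one hp
  have h2 : iter F u N a / iter F u N p - algebraMap k K (z a) =
      ((iter F u N a - algebraMap k K (γ * z a)) -
        algebraMap k K (z a) * (iter F u N p - algebraMap k K (γ * z p))) / iter F u N p := by
    rw [hz, mul_one, map_mul]
    field_simp
    ring
  rw [h2, map_div₀, hp, div_one]
  refine b.val.map_sub_lt (h1 a) ?_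
  rw [map_mul, mul_comm]
  exact mul_lt_one_of_lt_of_le (h1 p) (b.val_algebraMap_le _)

theorem contr {d : ℕ} {b : Place k K} {F : Fin 3 → MvPolynomial (Fin 3) K}
    {f : Fin 3 → MvPolynomial (Fin 3) k} (hF : ∀ i, (F i).IsHomogeneous d)
    (hf : GoodRed d b F f) {z : Fin 3 → k} {p : Fin 3} (hz : z p = 1) {N : ℕ} {γ : k}
    (hper : iter f z N = γ • z) (hadj : (mult f z N).adjugate = 0) {u u' : Fin 3 → K}
    (hu : ∀ a, b.val (u a - algebraMap k K (z a)) < 1)
    (hu' : ∀ a, b.val (u' a - algebraMap k K (z a)) < 1) (hp : u p = 1) (hp' : u' p = 1)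
    {m : ℤ} (hm : 1 ≤ m) (hd : ∀ a, b.val (u a - u' a) ≤ WithZero.exp (-m)) :
    ∀ a, b.val (iter F u N a / iter F u N p - iter F u' N a / iter F u' N p) ≤
      WithZero.exp (-(m + 1)) := by
  have hz0 : z ≠ 0 := by
    intro h
    rw [h] at hz
    exact zero_ne_one hz
  have hγ : γ ≠ 0 := by
    intro h
    have h1 : iter f z N ≠ 0 := Pool.Agent.Helper30.TP.iter_ne_zero hf.endo hz0 N
    rw [hper, h, zero_smul] at h1
    exact h1 rfl
  have hd0 : (d : k) ≠ 0 := by
    have := hf.endo.two_le
    exact_mod_cast (show d ≠ 0 by omega)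
  have hM : (mult f z N).mulVec z = ((d : k) ^ N * γ) • z := by
    rw [euler_mult hf.endo.hom, hper, smul_smul]
  have hr := rank_one hadj (mul_ne_zero (pow_ne_zero N hd0) hγ) hM hz
  obtain ⟨hI, -⟩ := contr_red hF hf hz hper hu
  obtain ⟨hI', -⟩ := contr_red hF hf hz hper hu'
  have hint : ∀ a, b.val (u a) ≤ 1 := by
    intro a
    have h1 : u a = (u a - algebraMap k K (z a)) + algebraMap k K (z a) := by ring
    rw [h1]
    exact (b.val.map_add _ _).trans (max_le (hu a).le (b.val_algebraMap_le _))
  have hε : WithZero.exp (-m) ≤ (1 : WithZero (Multiplicative ℤ)) := by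
    rw [← WithZero.exp_zero]
    exact WithZero.exp_le_exp.2 (by omega)
  set δ : Fin 3 → K := fun a => u' a - u a with hδ
  have hδ1 : ∀ a, b.val (δ a) ≤ WithZero.exp (-m) := by
    intro a
    rw [hδ, Valuation.map_sub_swap]
    exact hd a
  have hu'δ : (fun i => u i + δ i) = u' := by
    funext i
    rw [hδ]
    ring
  set Λ : K := ∑ j, algebraMap k K (mult f z N p j) * δ j with hΛ
  have hΛ1 : b.val Λ ≤ WithZero.exp (-m) := by
    refine b.val.map_sum_le fun j _ => ?_
    rw [map_mul]
    calc _ ≤ 1 * WithZero.exp (-m) := mul_le_mul' (b.val_algebraMap_le _) (hδ1 j)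
      _ = _ := one_mul _
  have hexp1 : WithZero.exp (-1 : ℤ) * WithZero.exp (-m) = WithZero.exp (-(m + 1)) := by
    rw [← WithZero.exp_add]
    congr 1
    ring
  have hexp2 : (WithZero.exp (-m)) ^ 2 ≤ WithZero.exp (-(m + 1)) := by
    rw [pow_two, ← WithZero.exp_add]
    exact WithZero.exp_le_exp.2 (by omega)
  -- the expansion of the image
  have hmain : ∀ a, b.val (iter F u' N a - iter F u N a - algebraMap k K (z a) * Λ) ≤
      WithZero.exp (-(m + 1)) := by
    intro a
    have hred := redP_itF hf.red N a
    have h1 := taylor b hred.integral hint hε hδ1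
    rw [hu'δ, eval_itF, eval_itF] at h1
    have h2 : iter F u' N a - iter F u N a - algebraMap k K (z a) * Λ =
        (iter F u' N a - iter F u N a - ∑ j, eval u (pderiv j (itF F N a)) * δ j) +
          ∑ j, (eval u (pderiv j (itF F N a)) - algebraMap k K (mult f z N a j)) * δ j := by
      have h3 : algebraMap k K (z a) * Λ = ∑ j, algebraMap k K (mult f z N a j) * δ j := by
        rw [hΛ, Finset.mul_sum]
        refine Finset.sum_congr rfl fun j _ => ?_
        rw [hr a j, map_mul, mul_assoc]
      simp only [sub_mul, Finset.sum_sub_distrib]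
      rw [h3]
      ring
    rw [h2]
    refine (b.val.map_add _ _).trans (max_le (h1.trans hexp2) ?_)
    refine b.val.map_sum_le fun j _ => ?_
    have h4 := (hred.pderiv j).eval hu
    have h4' : eval z (pderiv j (itF f N a)) = mult f z N a j := pderiv_itF f z N a j
    rw [h4'] at h4
    rw [map_mul, ← hexp1]
    exact mul_le_mul' (le_exp_of_lt_one h4) (hδ1 j)
  intro a
  have hne : iter F u N p ≠ 0 := by
    intro h
    rw [h, map_zero] at hI
    exact zero_ne_one hI
  have hne' : iter F u' N p ≠ 0 := by
    intro h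
    rw [h, map_zero] at hI'
    exact zero_ne_one hI'
  have h1 : ∀ a, b.val (iter F u N a - algebraMap k K (γ * z a)) < 1 := by
    intro a
    have h2 := (redP_itF hf.red N a).eval hu
    rw [eval_itF, eval_itF, hper] at h2
    exact h2
  have hIle : ∀ a, b.val (iter F u N a) ≤ 1 := by
    intro a
    have h2 : iter F u N a = (iter F u N a - algebraMap k K (γ * z a)) +
        algebraMap k K (γ * z a) := by ring
    rw [h2]
    exact (b.val.map_add _ _).trans (max_le (h1 a).le (b.val_algebraMap_le _))
  have h5 : iter F u N a / iter F u N p - iter F u' N a / iter F u' N p =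
      (Λ * ((iter F u N a - algebraMap k K (γ * z a)) -
          algebraMap k K (z a) * (iter F u N p - algebraMap k K (γ * z p))) +
        (iter F u N a * (iter F u' N p - iter F u N p - algebraMap k K (z p) * Λ) -
          (iter F u' N a - iter F u N a - algebraMap k K (z a) * Λ) * iter F u N p)) /
        (iter F u N p * iter F u' N p) := by
    rw [hz, map_one, mul_one, map_mul]
    field_simp
    ring
  rw [h5, map_div₀, map_mul b.val (iter F u N p), hI, hI', mul_one, div_one]
  refine (b.val.map_add _ _).trans (max_le ?_ ((b.val.map_sub _ _).trans (max_le ?_ ?_)))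
  · rw [map_mul, ← hexp1, mul_comm]
    refine mul_le_mul' (le_exp_of_lt_one (b.val.map_sub_lt (h1 a) ?_)) hΛ1
    rw [map_mul, mul_comm]
    exact mul_lt_one_of_lt_of_le (h1 p) (b.val_algebraMap_le _)
  · rw [map_mul]
    calc _ ≤ 1 * WithZero.exp (-(m + 1)) := mul_le_mul' (hIle a) (hmain p)
      _ = _ := one_mul _
  · rw [map_mul]
    calc _ ≤ WithZero.exp (-(m + 1)) * 1 := mul_le_mul' (hmain a) (hIle p)
      _ = _ := mul_one _

end Pool.Agent.Helper89.TC
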