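import Pool.Agent.Helper63.TK.LowM
import Pool.Agent.Helper63.TS.Count
import Pool.Agent.Helper63.TS.IterF
import Pool.Agent.Helper30.TP.Germ

/-!
# Orbits along which the derivatives of the iterates collapse: definitions
-/

set_option autoImplicit false

namespace Pool.Agent.Helper89.TC

open MvPolynomial
open Pool.Agent.Helper16 (Place IsFunctionField)
open Pool.Agent.Helper36 (step iter)
open Pool.Agent.Helper30.TP
open Pool.Agent.Helper63.TK
open Pool.Agent.Helper63.TS

/-- A point with coordinates in a finite extension of `K`. -/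
structure FinPt (k K : Type) [Field k] [Field K] [Algebra k K] where
  /-- the field -/
  L : Type
  [fld : Field L]
  [algk : Algebra k L]
  [alg : Algebra K L]
  [tow : IsScalarTower k K L]
  [fin : FiniteDimensional K L]
  /-- the coordinates -/
  y : Fin 3 → L
  ne : y ≠ 0

attribute [instance] FinPt.fld FinPt.algk FinPt.alg FinPt.tow FinPt.fin

variable {k K L : Type} [Field k] [Field K] [Field L] [Algebra k K] [Algebra k L] [Algebra K L]

/-- The vector `x` with the coordinates considered as elements of `L`. -/
def inc (L : Type) [Field L] [Algebra K L] (x : Fin 3 → K) : Fin 3 → L :=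
  fun a => algebraMap K L (x a)

/-- A normalised sequence of representatives of the points `x_(i + N j)`, `j = 0, 1, ...`. -/
structure NSeq (b : Place k K) (F : Fin 3 → MvPolynomial (Fin 3) K) (x : Fin 3 → K) (i N : ℕ)
    (ρ : ℤ) (p : Fin 3) (u : ℕ → Fin 3 → K) : Prop where
  one : ∀ j, u j p = 1
  int : ∀ j a, b.val (u j a) ≤ 1
  prop : ∀ j, PEq (iter F x (i + N * j)) (u j)
  cauchy : ∀ (j : ℕ) (a : Fin 3), b.val (u (j + 1) a - u j a) ≤ WithZero.exp (-(ρ + j))

/-- The vector `w` over `L` is periodic, close to the point `x_i` at the place `v`, which extends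
`b`, and its orbit is close to the curve `h = 0` whenever the orbit of `x_i` is on the curve. -/
structure Est (b : Place k K) (v : Place k L) (F : Fin 3 → MvPolynomial (Fin 3) K)
    (h : MvPolynomial (Fin 3) K) (D : ℕ) (x : Fin 3 → K) (i N : ℕ) (w : Fin 3 → L) : Prop where
  ext : ∀ a : K, v.val (algebraMap K L a) = b.val a
  per : ∃ γ : L, iter F w N = γ • w
  est : ∀ l, eval (iter F x (i + l)) h = 0 → aeval (iter F w l) h ≠ 0 →
    cl b (iter F x i) (iter F x (i + N)) ≤ countG D (map (algebraMap K L) h) (iter F w l) v
  con : ¬ PEq (inc L (iter F x i)) w →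
    cl b (iter F x i) (iter F x (i + N)) ≤ cl v (inc L (iter F x i)) w

end Pool.Agent.Helper89.TC
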