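import Pool.Agent.Helper89.TC.Periodic

/-!
# Descent of the estimates to a subfield
-/

set_option autoImplicit false

namespace Pool.Agent.Helper89.TC

open MvPolynomial
open Pool.Agent.Helper16 (Place IsFunctionField)
open Pool.Agent.Helper36 (step iter)
open Pool.Agent.Helper30.TP
open Pool.Agent.Helper63.TK
open Pool.Agent.Helper63.TS

section aux

variable {k K K' L : Type} [Field k] [Field K] [Field K'] [Field L] [Algebra k K]
  [Algebra k K'] [Algebra K K'] [IsScalarTower k K K'] [Algebra k L] [Algebra K L]
  [IsScalarTower k K L]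

/-- The place of the subfield. -/
noncomputable def Descend_place {b : Place k K} {b' : Place k K'}
    (h : ∀ a : K, b'.val (algebraMap K K' a) = b.val a) (σ : L →ₐ[K] K') : Place k L where
  val := b'.val.comap (σ : L →+* K')
  surj := by
    intro g
    obtain ⟨a, ha⟩ := b.surj g
    refine ⟨algebraMap K L a, ?_⟩
    rw [Valuation.comap_apply, ← ha, ← h a]
    congr 1
    exact σ.commutes a
  triv := by
    intro a ha
    rw [Valuation.comap_apply]
    have h1 : (σ : L →+* K') (algebraMap k L a) = algebraMap k K' a := by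
      rw [IsScalarTower.algebraMap_apply k K L, IsScalarTower.algebraMap_apply k K K']
      exact σ.commutes _
    rw [h1]
    exact b'.triv a ha

theorem Descend_val {b : Place k K} {b' : Place k K'}
    (h : ∀ a : K, b'.val (algebraMap K K' a) = b.val a) (σ : L →ₐ[K] K') (z : L) :
    (Descend_place h σ).val z = b'.val (σ z) := rfl

theorem Descend_nrm {b : Place k K} {b' : Place k K'}
    (h : ∀ a : K, b'.val (algebraMap K K' a) = b.val a) (σ : L →ₐ[K] K') (z : Fin 3 → L) :
    nrm b' (fun a => σ (z a)) = nrm (Descend_place h σ) z := rfl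

theorem Descend_map (σ : L →ₐ[K] K') (P : MvPolynomial (Fin 3) K) :
    map (algebraMap K K') P = map (σ : L →+* K') (map (algebraMap K L) P) := by
  have e : algebraMap K K' = (σ : L →+* K').comp (algebraMap K L) :=
    RingHom.ext fun a => (σ.commutes a).symm
  rw [MvPolynomial.map_map, ← e]

theorem Descend_gs {b : Place k K} {b' : Place k K'}
    (h : ∀ a : K, b'.val (algebraMap K K' a) = b.val a) (σ : L →ₐ[K] K')
    (P : MvPolynomial (Fin 3) K) :
    gs b' (map (algebraMap K K') P) = gs (Descend_place h σ) (map (algebraMap K L) P) := by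
  unfold gs
  rw [Descend_map σ P, MvPolynomial.support_map_of_injective _
    (f := (σ : L →+* K')) (RingHom.injective _)]
  refine Finset.sup_congr rfl fun m _ => ?_
  rw [coeff_map]
  rfl

theorem Descend_eval (σ : L →ₐ[K] K') (P : MvPolynomial (Fin 3) K) (z : Fin 3 → L) :
    eval (fun a => σ (z a)) (map (algebraMap K K') P) = σ (eval z (map (algebraMap K L) P)) := by
  rw [Descend_map σ P, eval_map]
  have h1 := MvPolynomial.eval₂_comp_left (σ : L →+* K') (RingHom.id L) z
    (map (algebraMap K L) P)
  rw [RingHom.comp_id] at h1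
  exact h1.symm

theorem Descend_countG_smul {b' : Place k K'} {D : ℕ} {P : MvPolynomial (Fin 3) K'}
    (hP : P.IsHomogeneous D) {c : K'} (hc : c ≠ 0) {z : Fin 3 → K'} (hz : z ≠ 0)
    (hz' : eval z P ≠ 0) : countG D P (c • z) b' = countG D P z b' := by
  have hc' : b'.val c ≠ 0 := (map_ne_zero b'.val).2 hc
  have hz'' : b'.val (eval z P) ≠ 0 := (map_ne_zero b'.val).2 hz'
  unfold countG
  rw [log_nrm_smul b' hc hz, count_eval_smul hP, map_mul, map_pow,
    WithZero.log_mul (pow_ne_zero _ hc') hz'', WithZero.log_pow, nsmul_eq_mul]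
  ring

theorem Descend_cross (σ : L →ₐ[K] K') (z z' : Fin 3 → L) :
    crossProduct (fun a => σ (z a)) (fun a => σ (z' a)) = fun a => σ (crossProduct z z' a) := by
  obtain ⟨h0, h1, h2⟩ := Cl_cross_apply (fun a => σ (z a)) (fun a => σ (z' a))
  obtain ⟨g0, g1, g2⟩ := Cl_cross_apply z z'
  funext a
  fin_cases a <;> simp only [Fin.zero_eta, Fin.mk_one, Fin.reduceFinMk]
  · rw [h0, g0, map_sub, map_mul, map_mul]
  · rw [h1, g1, map_sub, map_mul, map_mul]
  · rw [h2, g2, map_sub, map_mul, map_mul]

omit [Algebra k K] [Field k] [Field L] [Algebra k L] [Algebra K L] [IsScalarTower k K L]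
  [Algebra k K'] [IsScalarTower k K K'] in
theorem Descend_iter_smul {d : ℕ} {F : Fin 3 → MvPolynomial (Fin 3) K}
    (hF : ∀ i, (F i).IsHomogeneous d) (c : K') (y : Fin 3 → K') (n : ℕ) :
    iter F (c • y) n = c ^ d ^ n • iter F y n := by
  induction n with
  | zero => simp [Pool.Agent.Helper36.iter_zero]
  | succ n ih =>
    rw [Pool.Agent.Helper36.iter_succ, Pool.Agent.Helper36.iter_succ, ih]
    funext i
    rw [Pi.smul_apply, smul_eq_mul, pow_succ, pow_mul]
    exact Pool.Agent.Helper36.aeval_smul_homogeneous (hF i) (c ^ d ^ n) (iter F y n)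

end aux

theorem Est.descend {k K K' L : Type} [Field k] [Field K] [Field K'] [Field L] [Algebra k K]
    [Algebra k K'] [Algebra K K'] [IsScalarTower k K K'] [Algebra k L] [Algebra K L]
    [IsScalarTower k K L] {d : ℕ} {F : Fin 3 → MvPolynomial (Fin 3) K}
    (hF : ∀ i, (F i).IsHomogeneous d) {h : MvPolynomial (Fin 3) K} {D : ℕ}
    (hh : h.IsHomogeneous D) {b : Place k K} {b' : Place k K'} {x : Fin 3 → K}
    (hx : ∀ n, iter F x n ≠ 0) {i N : ℕ} {w : Fin 3 → K'} (hw0 : ∀ l, iter F w l ≠ 0)
    (hE : Est b b' F h D x i N w) (σ : L →ₐ[K] K') {y : Fin 3 → L} {c : K'} (hc : c ≠ 0)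
    (hw : w = fun a => c * σ (y a)) :
    ∃ v : Place k L, Est b v F h D x i N y := by
  have hw' : w = c • fun a => σ (y a) := hw
  have hinj : Function.Injective σ := (σ : L →+* K').injective
  -- the iterates
  have hit : ∀ l, iter F w l = c ^ d ^ l • fun a => σ (iter F y l a) := by
    intro l
    rw [hw', Descend_iter_smul hF]
    congr 1
    exact Pool.Agent.Helper36.iter_map F σ y l
  have hpw : ∀ l : ℕ, c ^ d ^ l ≠ 0 := fun l => pow_ne_zero _ hc
  have hyl : ∀ l, (fun a => σ (iter F y l a)) ≠ 0 := by
    intro l h0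
    apply hw0 l
    rw [hit l, h0, smul_zero]
  have hext : ∀ a : K, b'.val (algebraMap K K' a) = b.val a := hE.ext
  refine ⟨Descend_place hext σ, ?_, ?_, ?_, ?_⟩
  · -- extension
    intro a
    rw [Descend_val, σ.commutes]
    exact hE.ext a
  · -- periodicity
    obtain ⟨γ, hγ⟩ := hE.per
    obtain ⟨a0, ha0⟩ : ∃ a, y a ≠ 0 := by
      by_contra hcon
      push Not at hcon
      apply hyl 0
      funext a
      show σ (y a) = 0
      rw [hcon a, map_zero]
    have h1 : ∀ a, c ^ d ^ N * σ (iter F y N a) = γ * (c * σ (y a)) := by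
      intro a
      have h2 := congrFun hγ a
      rw [hit N, hw] at h2
      exact h2
    refine ⟨iter F y N a0 / y a0, ?_⟩
    funext a
    rw [Pi.smul_apply, smul_eq_mul]
    have h3 : iter F y N a * y a0 = iter F y N a0 * y a := by
      apply hinj
      rw [map_mul, map_mul]
      apply mul_left_cancel₀ (hpw N)
      linear_combination σ (y a0) * h1 a - σ (y a) * h1 a0
    field_simp
    linear_combination h3
  · -- the curve
    intro l hl hne
    have hev : aeval (iter F y l) h = eval (iter F y l) (map (algebraMap K L) h) := by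
      rw [eval_map, aeval_def]
    have hev' : eval (fun a => σ (iter F y l a)) (map (algebraMap K K') h) ≠ 0 := by
      rw [Descend_eval, ← hev]
      exact (map_ne_zero_iff σ hinj).2 hne
    have h1 := hE.est l hl (by
      rw [hit l, aeval_def, ← eval_map, count_eval_smul (hh.map _)]
      exact mul_ne_zero (pow_ne_zero _ (hpw l)) hev')
    rw [hit l, Descend_countG_smul (hh.map _) (hpw l) (hyl l) hev'] at h1
    refine h1.trans (le_of_eq ?_)
    unfold countG
    rw [Descend_nrm hext σ, Descend_gs hext σ, Descend_eval, Descend_val]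
  · -- the contact
    intro hne
    have hinc : inc K' (iter F x i) = fun a => σ (inc L (iter F x i) a) := by
      funext a
      exact (σ.commutes _).symm
    have hX : inc K' (iter F x i) ≠ 0 := by
      intro h0
      apply hx i
      funext a
      have h1 := congrFun h0 a
      exact (map_eq_zero_iff (algebraMap K K') (RingHom.injective _)).1 h1
    have hne' : ¬ PEq (inc K' (iter F x i)) w := by
      rintro ⟨c', hc', h1⟩
      apply hne
      have h2 : ∀ a, c * σ (y a) = c' * σ (inc L (iter F x i) a) := by
        intro a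
        have h3 := congrFun h1 a
        rw [hw, hinc] at h3
        exact h3
      obtain ⟨a0, ha0⟩ : ∃ a, inc L (iter F x i) a ≠ 0 := by
        by_contra hcon
        push Not at hcon
        apply hX
        rw [hinc]
        funext a
        rw [hcon a, map_zero]
        rfl
      have ha0' : σ (inc L (iter F x i) a0) ≠ 0 := (map_ne_zero_iff σ hinj).2 ha0
      have hy0 : y a0 ≠ 0 := by
        intro h3
        have h4 := h2 a0
        rw [h3, map_zero, mul_zero] at h4
        exact mul_ne_zero hc' ha0' h4.symm
      refine ⟨y a0 / inc L (iter F x i) a0, div_ne_zero hy0 ha0, ?_⟩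
      funext a
      rw [Pi.smul_apply, smul_eq_mul]
      have h3 : y a * inc L (iter F x i) a0 = y a0 * inc L (iter F x i) a := by
        apply hinj
        rw [map_mul, map_mul]
        apply mul_left_cancel₀ hc
        linear_combination σ (inc L (iter F x i) a0) * h2 a - σ (inc L (iter F x i) a) * h2 a0
      field_simp
      linear_combination h3
    refine (hE.con hne').trans (le_of_eq ?_)
    have hcr : crossProduct (inc K' (iter F x i)) w =
        c • crossProduct (inc K' (iter F x i)) (fun a => σ (y a)) := by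
      rw [hw', map_smul]
    have hcr0 : crossProduct (inc K' (iter F x i)) (fun a => σ (y a)) ≠ 0 := by
      intro h0
      apply cross_ne_zero hX (hw0 0) hne'
      show crossProduct (inc K' (iter F x i)) w = 0
      rw [hcr, h0, smul_zero]
    have hy0 : (fun a => σ (y a)) ≠ 0 := hyl 0
    unfold cl
    rw [hcr, log_nrm_smul b' hc hcr0, hw', log_nrm_smul b' hc hy0]
    rw [hinc, Descend_cross, Descend_nrm hext σ, Descend_nrm hext σ, Descend_nrm hext σ]
    ring

end Pool.Agent.Helper89.TC
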