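import Pool.Agent.Helper89.TC.Defs
import Pool.Agent.Helper30.TP.Dim3

/-!
# The intersection of two curves: dimension count
-/

set_option autoImplicit false

namespace Pool.Agent.Helper89.TC

open MvPolynomial
open Pool.Agent.Helper30.TP

variable {K : Type} [Field K]

theorem finA_arith {a b t n p q r s : ℕ} (hp : 2 * p = (b + t + 2) * (b + t + 1))
    (hq : 2 * q = (a + t + 2) * (a + t + 1))
    (hr : 2 * r = (a + b + t + 2) * (a + b + t + 1))
    (hs : 2 * s = (t + 2) * (t + 1)) (hn : a * b < n) :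
    r + s < p + (q + n) := by
  nlinarith

/-- The linear combinations of given forms. -/
noncomputable def finA_comb {ι : Type} [Fintype ι] {t : ℕ} (P : ι → MvPolynomial (Fin 3) K)
    (hP : ∀ i, (P i).IsHomogeneous t) : (ι → K) →ₗ[K] homogeneousSubmodule (Fin 3) K t :=
  Fintype.linearCombination K
    (fun i => (⟨P i, (mem_homogeneousSubmodule _ _).2 (hP i)⟩ : homogeneousSubmodule (Fin 3) K t))

theorem finA_comb_coe {ι : Type} [Fintype ι] {t : ℕ} (P : ι → MvPolynomial (Fin 3) K)
    (hP : ∀ i, (P i).IsHomogeneous t) (c : ι → K) :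
    ((finA_comb P hP c : homogeneousSubmodule (Fin 3) K t) : MvPolynomial (Fin 3) K) =
      ∑ i, C (c i) * P i := by
  rw [finA_comb, Fintype.linearCombination_apply, Submodule.coe_sum]
  refine Finset.sum_congr rfl fun i _ => ?_
  rw [Submodule.coe_smul, smul_eq_C_mul]

/-- More than `a * b` forms of the same degree become linearly dependent modulo `g, g'`, after
multiplication by a power of a variable. -/
theorem exists_relation {g g' : MvPolynomial (Fin 3) K} {a b : ℕ} (hg : g.IsHomogeneous a)
    (hg' : g'.IsHomogeneous b) (hirr : Irreducible g) (hnd : ¬ g ∣ g') {t : ℕ} {ι : Type}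
    [Fintype ι] (P : ι → MvPolynomial (Fin 3) K) (hP : ∀ i, (P i).IsHomogeneous t)
    (hcard : a * b < Fintype.card ι) (p : Fin 3) :
    ∃ (c : ι → K) (s : ℕ), c ≠ 0 ∧
      X p ^ s * ∑ i, C (c i) * P i ∈ Ideal.span ({g, g'} : Set (MvPolynomial (Fin 3) K)) := by
  classical
  have hg0 : g ≠ 0 := hirr.ne_zero
  have hprime : Prime g := UniqueFactorizationMonoid.irreducible_iff_prime.1 hirr
  have hXs : (X p ^ (a + b) : MvPolynomial (Fin 3) K).IsHomogeneous (a + b) := by
    have h := (isHomogeneous_X K p).pow (a + b)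
    rwa [one_mul] at h
  have h1 : a + (b + t) = a + b + t := by omega
  have h2 : b + (a + t) = a + b + t := by omega
  haveI := (finrank_forms K (b + t)).1
  haveI := (finrank_forms K (a + t)).1
  haveI := (finrank_forms K t).1
  haveI := (finrank_forms K (a + b + t)).1
  let Ψ : (ι → K) →ₗ[K] homogeneousSubmodule (Fin 3) K (a + b + t) :=
    (Dim3_mul (X p ^ (a + b)) hXs rfl) ∘ₗ (finA_comb P hP)
  let Φ : (homogeneousSubmodule (Fin 3) K (b + t) ×
      (homogeneousSubmodule (Fin 3) K (a + t) × (ι → K))) →ₗ[K]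
        homogeneousSubmodule (Fin 3) K (a + b + t) :=
    (Dim3_mul g hg h1).coprod ((Dim3_mul g' hg' h2).coprod (-Ψ))
  let Λ : homogeneousSubmodule (Fin 3) K t →ₗ[K]
      (homogeneousSubmodule (Fin 3) K (b + t) ×
        (homogeneousSubmodule (Fin 3) K (a + t) × (ι → K))) :=
    (-(Dim3_mul g' hg' rfl)).prod ((Dim3_mul g hg rfl).prod 0)
  have hΨ : ∀ c, ((Ψ c : homogeneousSubmodule (Fin 3) K (a + b + t)) : MvPolynomial (Fin 3) K) =
      X p ^ (a + b) * ∑ i, C (c i) * P i := by
    intro c
    have : Ψ c = Dim3_mul (X p ^ (a + b)) hXs rfl (finA_comb P hP c) := rfl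
    rw [this, Dim3_mul_coe, finA_comb_coe]
  have hΦ : ∀ v, ((Φ v : homogeneousSubmodule (Fin 3) K (a + b + t)) : MvPolynomial (Fin 3) K) =
      g * v.1 + (g' * v.2.1 - Ψ v.2.2) := by
    intro v
    have : Φ v = Dim3_mul g hg h1 v.1 + (Dim3_mul g' hg' h2 v.2.1 + -(Ψ v.2.2)) := rfl
    rw [this, Submodule.coe_add, Submodule.coe_add, Submodule.coe_neg, Dim3_mul_coe,
      Dim3_mul_coe, ← sub_eq_add_neg]
  by_cases hcon : ∀ v ∈ LinearMap.ker Φ, v.2.2 = 0
  · exfalso
    have hle : LinearMap.ker Φ ≤ LinearMap.range Λ := by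
      rintro ⟨A, B, c⟩ hv
      have hc : c = 0 := hcon _ hv
      have h3 : ((Φ (A, B, c) : homogeneousSubmodule (Fin 3) K (a + b + t)) :
          MvPolynomial (Fin 3) K) = 0 := by
        rw [LinearMap.mem_ker.1 hv]
        rfl
      rw [hΦ, hc, map_zero] at h3
      have h4 : g * (A : MvPolynomial (Fin 3) K) + g' * (B : MvPolynomial (Fin 3) K) = 0 := by
        simpa using h3
      by_cases hB : (B : MvPolynomial (Fin 3) K) = 0
      · rw [hB, mul_zero, add_zero] at h4
        have hA : (A : MvPolynomial (Fin 3) K) = 0 := (mul_eq_zero.1 h4).resolve_left hg0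
        refine ⟨0, ?_⟩
        rw [map_zero]
        refine Prod.ext (Subtype.ext hA.symm) (Prod.ext (Subtype.ext hB.symm) hc.symm)
      · have h5 : g ∣ (B : MvPolynomial (Fin 3) K) := by
          have h6 : g ∣ g' * (B : MvPolynomial (Fin 3) K) :=
            ⟨-A, by linear_combination h4⟩
          exact (hprime.dvd_or_dvd h6).resolve_left hnd
        obtain ⟨-, Q, hQ, hBQ⟩ := Dim3_cofactor hg hg0 ((mem_homogeneousSubmodule _ _).1 B.2) hB h5
        rw [Nat.add_sub_cancel_left] at hQ
        refine ⟨⟨Q, (mem_homogeneousSubmodule _ _).2 hQ⟩, ?_⟩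
        refine Prod.ext (Subtype.ext ?_) (Prod.ext (Subtype.ext ?_) hc.symm)
        · change -(g' * Q) = (A : MvPolynomial (Fin 3) K)
          apply mul_left_cancel₀ hg0
          rw [hBQ] at h4
          linear_combination -h4
        · change g * Q = (B : MvPolynomial (Fin 3) K)
          exact hBQ.symm
    have hk1 := Submodule.finrank_mono hle
    have hk2 := LinearMap.finrank_range_le Λ
    have hk3 := LinearMap.finrank_range_add_finrank_ker Φ
    have hk4 := Submodule.finrank_le (LinearMap.range Φ)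
    rw [Module.finrank_prod, Module.finrank_prod, Module.finrank_fintype_fun_eq_card,
      (finrank_forms K (b + t)).2, (finrank_forms K (a + t)).2] at hk3
    rw [(finrank_forms K (a + b + t)).2] at hk4
    rw [(finrank_forms K t).2] at hk2
    have hk5 := finA_arith (Dim3_choose (b + t)) (Dim3_choose (a + t))
      (Dim3_choose (a + b + t)) (Dim3_choose t) hcard
    omega
  · push Not at hcon
    obtain ⟨⟨A, B, c⟩, hv, hc⟩ := hcon
    have h3 : ((Φ (A, B, c) : homogeneousSubmodule (Fin 3) K (a + b + t)) :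
        MvPolynomial (Fin 3) K) = 0 := by
      rw [LinearMap.mem_ker.1 hv]
      rfl
    rw [hΦ, hΨ] at h3
    refine ⟨c, a + b, hc, ?_⟩
    have h4 : X p ^ (a + b) * ∑ i, C (c i) * P i =
        (A : MvPolynomial (Fin 3) K) * g + (B : MvPolynomial (Fin 3) K) * g' := by
      linear_combination -h3
    rw [h4]
    exact Ideal.mem_span_pair.2 ⟨A, B, rfl⟩

/-- Every polynomial is congruent to a form of any large degree modulo `X p - 1`. -/
theorem finA_homog (P : MvPolynomial (Fin 3) K) (p : Fin 3) {t : ℕ} (ht : P.totalDegree ≤ t)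
    {I : Ideal (MvPolynomial (Fin 3) K)} (hI : X p - 1 ∈ I) :
    ∃ H : MvPolynomial (Fin 3) K, H.IsHomogeneous t ∧
      Ideal.Quotient.mk I H = Ideal.Quotient.mk I P := by
  refine ⟨∑ d ∈ Finset.range (P.totalDegree + 1), X p ^ (t - d) * homogeneousComponent d P, ?_, ?_⟩
  · apply IsHomogeneous.sum
    intro d hd
    rw [Finset.mem_range] at hd
    have h1 := ((isHomogeneous_X K p).pow (t - d)).mul (homogeneousComponent_isHomogeneous d P)
    rwa [one_mul, Nat.sub_add_cancel (by omega)] at h1
  · have hX : Ideal.Quotient.mk I (X p) = 1 := by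
      rw [← sub_eq_zero, ← map_one (Ideal.Quotient.mk I), ← map_sub]
      exact Ideal.Quotient.eq_zero_iff_mem.2 hI
    rw [map_sum]
    conv_rhs => rw [← sum_homogeneousComponent P, map_sum]
    refine Finset.sum_congr rfl fun d _ => ?_
    rw [map_mul, map_pow, hX, one_pow, one_mul]

/-- The coordinate ring of the intersection in a chart. -/
theorem finrank_chart {g g' : MvPolynomial (Fin 3) K} {a b : ℕ} (hg : g.IsHomogeneous a)
    (hg' : g'.IsHomogeneous b) (hirr : Irreducible g) (hnd : ¬ g ∣ g') (p : Fin 3) :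
    FiniteDimensional K (MvPolynomial (Fin 3) K ⧸
      Ideal.span ({g, g', X p - 1} : Set (MvPolynomial (Fin 3) K))) ∧
    Module.finrank K (MvPolynomial (Fin 3) K ⧸
      Ideal.span ({g, g', X p - 1} : Set (MvPolynomial (Fin 3) K))) ≤ a * b := by
  classical
  set I : Ideal (MvPolynomial (Fin 3) K) :=
    Ideal.span ({g, g', X p - 1} : Set (MvPolynomial (Fin 3) K)) with hIdef
  have hI : X p - 1 ∈ I := Ideal.subset_span (by simp)
  have hle : Ideal.span ({g, g'} : Set (MvPolynomial (Fin 3) K)) ≤ I := by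
    apply Ideal.span_mono
    intro x hx
    rcases hx with rfl | hx
    · simp
    · rw [Set.mem_singleton_iff] at hx
      subst hx
      simp
  have hX : Ideal.Quotient.mk I (X p) = 1 := by
    rw [← sub_eq_zero, ← map_one (Ideal.Quotient.mk I), ← map_sub]
    exact Ideal.Quotient.eq_zero_iff_mem.2 hI
  have hrank : Module.rank K (MvPolynomial (Fin 3) K ⧸ I) ≤ ((a * b : ℕ) : Cardinal) := by
    apply rank_le
    intro s hs
    by_contra hcard
    push Not at hcard
    choose L hL using fun x : MvPolynomial (Fin 3) K ⧸ I => Ideal.Quotient.mk_surjective x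
    obtain ⟨t, ht⟩ : ∃ t, ∀ x ∈ s, (L x).totalDegree ≤ t :=
      ⟨s.sup fun x => (L x).totalDegree, fun x hx => Finset.le_sup (f := fun x => (L x).totalDegree) hx⟩
    have hH : ∀ x : s, ∃ H : MvPolynomial (Fin 3) K, H.IsHomogeneous t ∧
        Ideal.Quotient.mk I H = x := by
      intro x
      obtain ⟨H, h1, h2⟩ := finA_homog (L x) p (ht x x.2) hI
      exact ⟨H, h1, h2.trans (hL x)⟩
    choose H hH1 hH2 using hH
    have hcard' : a * b < Fintype.card s := by rwa [Fintype.card_coe]
    obtain ⟨c, m, hc, hmem⟩ := exists_relation hg hg' hirr hnd H hH1 hcard' p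
    have h1 := Ideal.Quotient.eq_zero_iff_mem.2 (hle hmem)
    rw [map_mul, map_pow, hX, one_pow, one_mul, map_sum] at h1
    have h2 : ∑ i : s, c i • (i : MvPolynomial (Fin 3) K ⧸ I) = 0 := by
      rw [← h1]
      refine Finset.sum_congr rfl fun i _ => ?_
      have h3 : c i • (Ideal.Quotient.mk I (H i)) = Ideal.Quotient.mk I (c i • H i) := rfl
      rw [← hH2 i, h3, smul_eq_C_mul]
    exact hc (funext fun i => Fintype.linearIndependent_iff.1 hs c h2 i)
  refine ⟨?_, Module.finrank_le_of_rank_le hrank⟩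
  exact Module.rank_lt_aleph0_iff.1 (hrank.trans_lt (Cardinal.natCast_lt_aleph0))

end Pool.Agent.Helper89.TC
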