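import Pool.Agent.Helper89.TC.Lim
import Pool.Agent.Helper89.TC.Contr
import Pool.Agent.Helper63.TS.Trace

/-!
# The limit of the normalised sequence
-/

set_option autoImplicit false

namespace Pool.Agent.Helper89.TC

open MvPolynomial
open Pool.Agent.Helper16 (Place IsFunctionField)
open Pool.Agent.Helper36 (step iter)
open Pool.Agent.Helper30.TP
open Pool.Agent.Helper63.TK
open Pool.Agent.Helper63.TS

variable {k K : Type} [Field k] [IsAlgClosed k] [Field K] [Algebra k K]

omit [IsAlgClosed k] in
/-- Integral polynomials over `K` are Lipschitz on integral points over an extension. -/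
theorem Point_lip {K' : Type} [Field K'] [Algebra k K'] [Algebra K K'] {b : Place k K}
    {b' : Place k K'} (hext : ∀ c : K, b'.val (algebraMap K K' c) = b.val c)
    {P : MvPolynomial (Fin 3) K} (hP : ∀ m, b.val (P.coeff m) ≤ 1) {y y' : Fin 3 → K'}
    (hy : ∀ a, b'.val (y a) ≤ 1) (hy' : ∀ a, b'.val (y' a) ≤ 1)
    {ε : WithZero (Multiplicative ℤ)} (hd : ∀ a, b'.val (y a - y' a) ≤ ε) :
    b'.val (aeval y P) ≤ 1 ∧ b'.val (aeval y P - aeval y' P) ≤ ε := by
  have hP' : ∀ m, b'.val ((map (algebraMap K K') P).coeff m) ≤ 1 := fun m => by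
    rw [coeff_map, hext]
    exact hP m
  have h1 := ContrAux.val_eval_le b' hP' hy
  have h2 := val_eval_sub_le b' hP' hy hy' hd
  rw [eval_map] at h1
  rw [eval_map, eval_map] at h2
  exact ⟨h1, h2⟩

omit [IsAlgClosed k] in
theorem Point_lip_iter {K' : Type} [Field K'] [Algebra k K'] [Algebra K K'] {b : Place k K}
    {b' : Place k K'} (hext : ∀ c : K, b'.val (algebraMap K K' c) = b.val c)
    {F : Fin 3 → MvPolynomial (Fin 3) K} (hF : ∀ i m, b.val ((F i).coeff m) ≤ 1)
    {y y' : Fin 3 → K'}
    (hy : ∀ a, b'.val (y a) ≤ 1) (hy' : ∀ a, b'.val (y' a) ≤ 1)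
    {ε : WithZero (Multiplicative ℤ)} (hd : ∀ a, b'.val (y a - y' a) ≤ ε) (l : ℕ) :
    (∀ a, b'.val (iter F y l a) ≤ 1) ∧ (∀ a, b'.val (iter F y' l a) ≤ 1) ∧
      ∀ a, b'.val (iter F y l a - iter F y' l a) ≤ ε := by
  induction l with
  | zero => exact ⟨hy, hy', hd⟩
  | succ l ih =>
    obtain ⟨h1, h2, h3⟩ := ih
    refine ⟨fun a => ?_, fun a => ?_, fun a => ?_⟩
    · rw [Pool.Agent.Helper36.iter_succ]
      exact (Point_lip hext (hF a) h1 h2 h3).1
    · rw [Pool.Agent.Helper36.iter_succ]
      exact (Point_lip hext (hF a) h2 h2 (ε := 1) (fun a => by rw [sub_self, map_zero]; exact zero_le)).1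
    · rw [Pool.Agent.Helper36.iter_succ, Pool.Agent.Helper36.iter_succ]
      exact (Point_lip hext (hF a) h1 h2 h3).2

/-- The norm of a unimodular vector is preserved at a place of good reduction. -/
theorem Point_nrm {K' : Type} [Field K'] [Algebra k K'] [Algebra K K'] [IsScalarTower k K K']
    {d : ℕ} {b : Place k K}
    {b' : Place k K'} (hext : ∀ c : K, b'.val (algebraMap K K' c) = b.val c)
    {F : Fin 3 → MvPolynomial (Fin 3) K} {f : Fin 3 → MvPolynomial (Fin 3) k}
    (hf : GoodRed d b F f) {w : Fin 3 → K'} (hw : nrm b' w = 1) (l : ℕ) :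
    nrm b' (iter F w l) = 1 := by
  induction l with
  | zero => exact hw
  | succ l ih =>
    rw [Pool.Agent.Helper36.iter_succ]
    set y := iter F w l with hy
    have hyi : ∀ a, b'.val (y a) ≤ 1 := fun a => by
      rw [← ih]
      exact val_le_nrm b' y a
    have h1 : nrm b' (step f y) = 1 := by
      rw [nrm_step hf.endo, ih, one_pow]
    have h2 : ∀ i, b'.val (step F y i - step f y i) < 1 := by
      intro i
      have h3 : step F y i - step f y i = aeval y (F i - map (algebraMap k K) (f i)) := by
        rw [map_sub, aeval_map_algebraMap]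
        rfl
      rw [h3, aeval_def, eval₂_eq]
      refine b'.val.map_sum_lt one_ne_zero fun m _ => ?_
      rw [map_mul, hext, coeff_sub, coeff_map, map_prod]
      refine mul_lt_one_of_lt_of_le (hf.red i m) (Finset.prod_le_one' fun a _ => ?_)
      rw [map_pow]
      exact pow_le_one' (hyi a) _
    apply le_antisymm
    · refine nrm_le fun i => ?_
      have h3 : step F y i = (step F y i - step f y i) + step f y i := by ring
      rw [h3]
      refine (b'.val.map_add _ _).trans (max_le (h2 i).le ?_)
      rw [← h1]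
      exact val_le_nrm b' _ i
    · obtain ⟨i, hi⟩ := exists_val_eq_nrm b' (step f y)
      rw [h1] at hi
      have h3 : step F y i = (step F y i - step f y i) + step f y i := by ring
      have h4 : b'.val (step F y i) = 1 := by
        rw [h3, Valuation.map_add_eq_of_lt_right _ (by rw [hi]; exact h2 i), hi]
      rw [← h4]
      exact val_le_nrm b' _ i

theorem exists_limit_point {d : ℕ} {b : Place k K} {F : Fin 3 → MvPolynomial (Fin 3) K}
    (hF : ∀ i, (F i).IsHomogeneous d) (hb : Good d b F) {x : Fin 3 → K} {i N : ℕ} {ρ : ℤ}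
    (hρ : 0 < ρ) {p : Fin 3} {u : ℕ → Fin 3 → K} (hu : NSeq b F x i N ρ p u) :
    ∃ (K' : Type) (_ : Field K') (_ : Algebra k K') (_ : Algebra K K')
      (_ : IsScalarTower k K K') (b' : Place k K') (w : Fin 3 → K'),
      (∀ c : K, b'.val (algebraMap K K' c) = b.val c) ∧ w p = 1 ∧
      (∃ γ : K', iter F w N = γ • w) ∧
      (∀ a, b'.val (w a - algebraMap K K' (u 0 a)) ≤ WithZero.exp (-ρ)) ∧
      (∀ l, nrm b' (iter F w l) = 1) ∧
      (∀ (P : MvPolynomial (Fin 3) K) (l : ℕ), (∀ m, b.val (P.coeff m) ≤ 1) →
        eval (iter F (u 0) l) P = 0 → b'.val (aeval (iter F w l) P) ≤ WithZero.exp (-ρ)) ∧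
      (∀ (P : MvPolynomial (Fin 3) K) (r : ℕ), (∀ m, b.val (P.coeff m) ≤ 1) →
        {j | eval (iter F (u j) r) P = 0}.Infinite → aeval (iter F w r) P = 0) := by
  classical
  obtain ⟨f, hf⟩ := hb
  have hFint : ∀ i m, b.val ((F i).coeff m) ≤ 1 := fun i m => (hf.red i).integral m
  -- the members of the sequence
  have hdiff : ∀ j j' : ℕ, j ≤ j' → ∀ a, b.val (u j' a - u j a) ≤ WithZero.exp (-(ρ + j)) := by
    intro j j' hjj
    induction j', hjj using Nat.le_induction with
    | base =>
      intro a
      rw [sub_self, map_zero]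
      exact zero_le
    | succ n hn ih =>
      intro a
      have h1 : u (n + 1) a - u j a = (u (n + 1) a - u n a) + (u n a - u j a) := by ring
      rw [h1]
      refine (b.val.map_add _ _).trans (max_le ((hu.cauchy n a).trans ?_) (ih a))
      rw [WithZero.exp_le_exp]
      have : (j : ℤ) ≤ n := by exact_mod_cast hn
      omega
  have hid : ∀ c : K, b.val (algebraMap K K c) = b.val c := fun _ => rfl
  have hae : ∀ (y : Fin 3 → K) (Q : MvPolynomial (Fin 3) K), aeval y Q = eval y Q := fun y Q => by
    rw [aeval_def, eval, eval₂_eq, coe_eval₂Hom, eval₂_eq]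
    rfl
  have hintit : ∀ j l a, b.val (iter F (u j) l a) ≤ 1 := fun j l =>
    (Point_lip_iter hid hFint (hu.int j) (hu.int j) (ε := 1)
      (fun a => by rw [sub_self, map_zero]; exact zero_le) l).1
  have hnext : ∀ j a, iter F (u j) N a = iter F (u j) N p * u (j + 1) a := by
    intro j a
    obtain ⟨c, hc, h1⟩ := hu.prop j
    obtain ⟨c', hc', h2⟩ := hu.prop (j + 1)
    obtain ⟨e, he, h3⟩ := Trace_iter_smul hF hc (iter F x (i + N * j)) N
    have h4 : iter F x (i + N * (j + 1)) = iter F (iter F x (i + N * j)) N := by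
      rw [← Pool.Agent.Helper36.iter_add]
      congr 1
      ring
    have h5 : ∀ a, iter F (u j) N a = e * c'⁻¹ * u (j + 1) a := by
      intro a
      rw [h1, h3, h2, h4]
      simp only [Pi.smul_apply, smul_eq_mul]
      field_simp
    rw [h5 a, h5 p, hu.one (j + 1), mul_one]
  -- the ultrafilter
  set W : Ultrafilter ℕ := Filter.hyperfilter ℕ with hW
  have hev : ∀ c : ℕ, ∀ᶠ j in (W : Filter ℕ), c ≤ j := fun c =>
    Nat.hyperfilter_le_atTop (Filter.eventually_ge_atTop c)
  obtain ⟨K', iF, ik, iK, iT, b', r, hrc, hext, hzero, hle, hge⟩ := exists_limit_place b W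
  letI algA : Algebra K (bddSub b W) := RingHom.toAlgebra
    { toFun := fun c => ⟨fun _ => c, const_mem_bddSub b W c⟩
      map_one' := rfl
      map_mul' := fun _ _ => rfl
      map_zero' := rfl
      map_add' := fun _ _ => rfl }
  let rA : bddSub b W →ₐ[K] K' := { r with commutes' := hrc }
  let π : ℕ → (bddSub b W →ₐ[K] K) := fun j =>
    { toFun := fun y => y.1 j
      map_one' := rfl
      map_mul' := fun _ _ => rfl
      map_zero' := rfl
      map_add' := fun _ _ => rfl
      commutes' := fun _ => rfl }
  let U : Fin 3 → bddSub b W := fun a => ⟨fun j => u j a, 0, Filter.Eventually.of_forall fun j => by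
    rw [Nat.cast_zero, WithZero.exp_zero]
    exact hu.int j a⟩
  let w : Fin 3 → K' := fun a => r (U a)
  have hit : ∀ l a, iter F w l a = r (iter F U l a) := fun l a =>
    congrFun (Pool.Agent.Helper36.iter_map F rA U l) a
  have hitj : ∀ j l a, (iter F U l a).1 j = iter F (u j) l a := fun j l a =>
    (congrFun (Pool.Agent.Helper36.iter_map F (π j) U l) a).symm
  have hone : U p = 1 := by
    apply Subtype.ext
    funext j
    exact hu.one j
  have hwp : w p = 1 := by
    show r (U p) = 1
    rw [hone, map_one]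
  have hwint : ∀ a, b'.val (w a) ≤ 1 := by
    intro a
    rw [← WithZero.exp_zero]
    exact hle (U a) 0 (Filter.Eventually.of_forall fun j => by
      rw [WithZero.exp_zero]
      exact hu.int j a)
  have hclose : ∀ a, b'.val (w a - algebraMap K K' (u 0 a)) ≤ WithZero.exp (-ρ) := by
    intro a
    have h1 : w a - algebraMap K K' (u 0 a) =
        r (U a - ⟨fun _ => u 0 a, const_mem_bddSub b W (u 0 a)⟩) := by
      rw [map_sub, hrc]
    rw [h1]
    refine hle _ _ (Filter.Eventually.of_forall fun j => ?_)
    have h2 := hdiff 0 j (Nat.zero_le j) a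
    rw [Nat.cast_zero, add_zero] at h2
    exact h2
  have hnw : nrm b' w = 1 := by
    refine le_antisymm (nrm_le hwint) ?_
    have h1 := val_le_nrm b' w p
    rwa [hwp, map_one] at h1
  refine ⟨K', iF, ik, iK, iT, b', w, hext, hwp, ⟨iter F w N p, ?_⟩, hclose,
    Point_nrm hext hf hnw, ?_, ?_⟩
  · funext a
    rw [Pi.smul_apply, smul_eq_mul, hit, hit]
    have h1 : r (iter F U N a - iter F U N p * U a) = 0 := by
      rw [hzero]
      intro c
      filter_upwards [hev c] with j hj
      have h2 : (iter F U N a - iter F U N p * U a).1 j =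
          iter F (u j) N p * (u (j + 1) a - u j a) := by
        have h3 : (iter F U N a - iter F U N p * U a).1 j =
          (iter F U N a).1 j - (iter F U N p).1 j * u j a := rfl
        rw [h3, hitj, hitj, hnext j a]
        ring
      rw [h2, map_mul]
      refine (mul_le_mul' (hintit j N p) (hu.cauchy j a)).trans_lt ?_
      rw [one_mul, WithZero.exp_lt_exp]
      have : (c : ℤ) ≤ j := by exact_mod_cast hj
      omega
    rw [map_sub, map_mul, sub_eq_zero] at h1
    exact h1
  · intro P l hP h0
    have h1 : ∀ a, b'.val (algebraMap K K' (u 0 a)) ≤ 1 := fun a => by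
      rw [hext]
      exact hu.int 0 a
    obtain ⟨h2, h3, h4⟩ := Point_lip_iter hext hFint hwint h1 hclose l
    have h5 := (Point_lip hext hP h2 h3 h4).2
    have h6 : iter F (fun a => algebraMap K K' (u 0 a)) l =
        fun a => algebraMap K K' (iter F (u 0) l a) :=
      Pool.Agent.Helper36.iter_map F (Algebra.ofId K K') (u 0) l
    have h7 : aeval (iter F (fun a => algebraMap K K' (u 0 a)) l) P = 0 := by
      rw [h6]
      have h8 : aeval (fun a => algebraMap K K' (iter F (u 0) l a)) P =
          algebraMap K K' (aeval (iter F (u 0) l) P) := aeval_algebraMap_apply _ _ _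
      rw [h8, hae, h0, map_zero]
    rwa [h7, sub_zero] at h5
  · intro P l hP hinf
    have h1 : aeval (iter F w l) P = r (aeval (iter F U l) P) := by
      have h2 := comp_aeval_apply (iter F U l) rA P
      have h3 : iter F w l = fun a => rA (iter F U l a) := funext fun a => hit l a
      rw [h3]
      exact h2.symm
    rw [h1, hzero]
    intro c
    filter_upwards [hev c] with j hj
    have h2 : (aeval (iter F U l) P : bddSub b W).1 j = eval (iter F (u j) l) P := by
      have h3 := comp_aeval_apply (iter F U l) (π j) P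
      have h4 : (fun a => π j (iter F U l a)) = iter F (u j) l := funext fun a => hitj j l a
      rw [h4, hae] at h3
      exact h3
    rw [h2]
    obtain ⟨j', hj', hjj⟩ := hinf.exists_gt j
    have h5 : eval (iter F (u j') l) P = 0 := hj'
    have h6 := (Point_lip_iter hid hFint (hu.int j') (hu.int j) (hdiff j j' hjj.le) l).2.2
    have h7 := val_eval_sub_le b hP (hintit j' l) (hintit j l) h6
    rw [h5, zero_sub, Valuation.map_neg] at h7
    refine h7.trans_lt ?_
    rw [WithZero.exp_lt_exp]
    have : (c : ℤ) ≤ j := by exact_mod_cast hj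
    omega

end Pool.Agent.Helper89.TC
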