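import Pool.Agent.Helper89.TC.Seq
import Pool.Agent.Helper89.TC.Point

/-!
# The local argument
-/

set_option autoImplicit false

namespace Pool.Agent.Helper89.TC

open MvPolynomial
open Pool.Agent.Helper16 (Place IsFunctionField)
open Pool.Agent.Helper36 (step iter)
open Pool.Agent.Helper30.TP
open Pool.Agent.Helper63.TK
open Pool.Agent.Helper63.TS

variable {k K : Type} [Field k] [IsAlgClosed k] [CharZero k] [Field K] [Algebra k K]

omit [IsAlgClosed k] [CharZero k] in
theorem Local_cross_le (b : Place k K) {y w : Fin 3 → K} {ε : WithZero (Multiplicative ℤ)}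
    (hw : nrm b w ≤ 1) (hd : ∀ a, b.val (w a - y a) ≤ ε) : nrm b (crossProduct y w) ≤ ε := by
  have key : ∀ p q : Fin 3, b.val (y p * w q - y q * w p) ≤ ε := by
    intro p q
    have h1 : y p * w q - y q * w p = (w q - y q) * w p - (w p - y p) * w q := by ring
    rw [h1]
    refine (b.val.map_sub _ _).trans (max_le ?_ ?_)
    · rw [map_mul]
      exact (mul_le_of_le_one_right' ((val_le_nrm b w p).trans hw)).trans (hd q)
    · rw [map_mul]
      exact (mul_le_of_le_one_right' ((val_le_nrm b w q).trans hw)).trans (hd p)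
  obtain ⟨h0, h1, h2⟩ := Cl_cross_apply y w
  refine nrm_le fun i => ?_
  fin_cases i <;> simp only [Fin.zero_eta, Fin.mk_one, Fin.reduceFinMk]
  · rw [h0]; exact key 1 2
  · rw [h1]; exact key 2 0
  · rw [h2]; exact key 0 1

omit [IsAlgClosed k] [CharZero k] in
theorem Local_cl_smul (b : Place k K) {x y : Fin 3 → K} (hx : x ≠ 0) (hy : y ≠ 0)
    (h : ¬ PEq x y) {s : K} (hs : s ≠ 0) : cl b (s • x) y = cl b x y := by
  have h3 : crossProduct (s • x) y = s • crossProduct x y := by
    rw [map_smul crossProduct s x, LinearMap.smul_apply]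
  unfold cl
  rw [h3, log_nrm_smul b hs hx, log_nrm_smul b hs (cross_ne_zero hx hy h)]
  ring

omit [IsAlgClosed k] [CharZero k] in
theorem Local_log_le {b : Place k K} {a : K} (ha : a ≠ 0) {m : ℤ}
    (h : b.val a ≤ WithZero.exp m) : WithZero.log (b.val a) ≤ m := by
  have h1 := (WithZero.log_le_log ((map_ne_zero b.val).2 ha) WithZero.exp_ne_zero).2 h
  rwa [WithZero.log_exp] at h1

omit [IsAlgClosed k] [CharZero k] in
theorem Local_gs_map {K' : Type} [Field K'] [Algebra k K'] [Algebra K K'] {b : Place k K}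
    {b' : Place k K'} (hext : ∀ c : K, b'.val (algebraMap K K' c) = b.val c)
    (h : MvPolynomial (Fin 3) K) : gs b' (map (algebraMap K K') h) = gs b h := by
  unfold gs
  have h1 : (map (algebraMap K K') h).support = h.support :=
    support_map_of_injective h (algebraMap K K').injective
  rw [h1]
  refine Finset.sup_congr rfl fun m _ => ?_
  rw [coeff_map, hext]

omit [IsAlgClosed k] [CharZero k] [Algebra k K] [Field k] in
theorem Local_eval {d : ℕ} {F : Fin 3 → MvPolynomial (Fin 3) K} (hF : ∀ i, (F i).IsHomogeneous d)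
    {h : MvPolynomial (Fin 3) K} {D : ℕ} (hh : h.IsHomogeneous D) {x u : Fin 3 → K}
    (hu : PEq x u) {l : ℕ} (h0 : eval (iter F x l) h = 0) : eval (iter F u l) h = 0 := by
  obtain ⟨c, -, hc⟩ := Helper36.PEq.iter hF hu l
  rw [hc, count_eval_smul hh, h0, mul_zero]

theorem local_point (hK : IsFunctionField k K) {d : ℕ} {b : Place k K}
    {F : Fin 3 → MvPolynomial (Fin 3) K} (hF : ∀ i, (F i).IsHomogeneous d)
    (hb : Good d b F) {x : Fin 3 → K} (hx : ∀ n, iter F x n ≠ 0)
    (hdist : ∀ n n', n ≠ n' → ¬ PEq (iter F x n) (iter F x n'))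
    {h : MvPolynomial (Fin 3) K} {D : ℕ} (hh : h.IsHomogeneous D) (hg : gs b h = 1)
    {i N r : ℕ} (hN : 0 < N) (hadj : (mult F (iter F x i) N).adjugate = 0)
    (hinf : {j | eval (iter F x (i + r + N * j)) h = 0}.Infinite)
    (hcl : 0 < cl b (iter F x i) (iter F x (i + N))) :
    ∃ (K' : Type) (_ : Field K') (_ : Algebra k K') (_ : Algebra K K')
      (_ : IsScalarTower k K K') (b' : Place k K') (w : Fin 3 → K'),
      w ≠ 0 ∧ aeval (iter F w r) h = 0 ∧ Est b b' F h D x i N w := by
  obtain ⟨p, u, hu⟩ := exists_seq hK hF hb hx hdist hN hadj hcl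
  obtain ⟨K', fK, ak, aK, tow, b', w, hext, hwp, hper, hclose, hnrm, hP1, hP2⟩ :=
    exists_limit_point hF hb hcl hu
  have hint : ∀ m, b.val (h.coeff m) ≤ 1 := fun m => (formHeight_le b h m).trans_eq hg
  have hw0 : w ≠ 0 := by
    intro h0
    rw [h0] at hwp
    exact zero_ne_one hwp
  have hu0 := hu.prop 0
  rw [mul_zero, add_zero] at hu0
  refine ⟨K', fK, ak, aK, tow, b', w, hw0, ?_, ⟨hext, hper, ?_, ?_⟩⟩
  · refine hP2 h r hint (hinf.mono ?_)
    intro j hj
    have hj' : eval (iter F x (i + r + N * j)) h = 0 := hj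
    refine Local_eval hF hh (hu.prop j) (l := r) ?_
    rw [← Helper36.iter_add]
    rw [show r + (i + N * j) = i + r + N * j by ring]
    exact hj'
  · intro l hl hne
    have h1 : eval (iter F (u 0) l) h = 0 := by
      refine Local_eval hF hh hu0 (l := l) ?_
      rw [← Helper36.iter_add, add_comm]
      exact hl
    have h2 := hP1 h l hint h1
    have h3 := Local_log_le hne h2
    unfold countG
    rw [Local_gs_map hext, hg, hnrm, WithZero.log_one, mul_zero, eval_map, ← aeval_def]
    linarith
  · intro hne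
    obtain ⟨c, hc, hcu⟩ := hu0
    have hc' : algebraMap K K' c ≠ 0 := (map_ne_zero _).2 hc
    have hinc : inc K' (u 0) = algebraMap K K' c • inc K' (iter F x i) := by
      funext a
      show algebraMap K K' (u 0 a) = algebraMap K K' c * algebraMap K K' (iter F x i a)
      rw [hcu, Pi.smul_apply, smul_eq_mul, map_mul]
    have hx0 : inc K' (iter F x i) ≠ 0 := by
      intro h0
      refine hx i (funext fun a => ?_)
      have h1 := congrFun h0 a
      have h2 : algebraMap K K' (iter F x i a) = 0 := h1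
      rw [← map_zero (algebraMap K K')] at h2
      exact (algebraMap K K').injective h2
    have hcl1 : cl b' (inc K' (iter F x i)) w = cl b' (inc K' (u 0)) w := by
      rw [hinc]
      exact (Local_cl_smul b' hx0 hw0 hne hc').symm
    have hne2 : ¬ PEq (inc K' (u 0)) w := by
      rintro ⟨s, hs, hsw⟩
      refine hne ⟨s * algebraMap K K' c, mul_ne_zero hs hc', ?_⟩
      rw [hsw, hinc, smul_smul]
    have hu0' : inc K' (u 0) ≠ 0 := by
      rw [hinc]
      exact smul_ne_zero hc' hx0
    have hn1 : nrm b' (inc K' (u 0)) = 1 := by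
      refine le_antisymm (nrm_le fun a => ?_) ?_
      · show b'.val (algebraMap K K' (u 0 a)) ≤ 1
        rw [hext]
        exact hu.int 0 a
      · have h1 := val_le_nrm b' (inc K' (u 0)) p
        have h2 : inc K' (u 0) p = 1 := by
          show algebraMap K K' (u 0 p) = 1
          rw [hu.one 0, map_one]
        rwa [h2, map_one] at h1
    have hn2 : nrm b' w = 1 := hnrm 0
    have hn3 := Local_cross_le b' (y := inc K' (u 0)) hn2.le hclose
    have hcr := cross_ne_zero hu0' hw0 hne2
    have hn4 := (WithZero.log_le_log (nrm_ne_zero hcr) WithZero.exp_ne_zero).2 hn3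
    rw [WithZero.log_exp] at hn4
    rw [hcl1]
    unfold cl at hn4 ⊢
    rw [hn1, hn2, WithZero.log_one]
    linarith

end Pool.Agent.Helper89.TC
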