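import Pool.Agent.Helper89.TC.Scale

/-!
# Heights of polynomials in finite extensions
-/

set_option autoImplicit false

namespace Pool.Agent.Helper89.TC

open MvPolynomial
open Pool.Agent.Helper16 (Place IsFunctionField)
open Pool.Agent.Helper30.TP

variable {k K : Type} [Field k] [IsAlgClosed k] [Field K] [Algebra k K]

omit [IsAlgClosed k] [Algebra k K] in
/-- The logarithm of the Gauss norm is at most the sum over the coefficients. -/
private theorem scaleP_log_gs_le {L : Type} [Field L] [Algebra k L] [Algebra K L]
    (v : Place k L) (P : MvPolynomial (Fin 3) K) :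
    max 0 (WithZero.log (gs v (map (algebraMap K L) P))) ≤
      ∑ m ∈ P.support, max 0 (WithZero.log (v.val (algebraMap K L (P.coeff m)))) := by
  have hnn : ∀ m ∈ P.support,
      0 ≤ max 0 (WithZero.log (v.val (algebraMap K L (P.coeff m)))) := fun m _ => le_max_left _ _
  refine max_le (Finset.sum_nonneg hnn) ?_
  by_cases hP : map (algebraMap K L) P = 0
  · rw [hP, formHeight_zero, WithZero.log_zero]
    exact Finset.sum_nonneg hnn
  · obtain ⟨m, hm, hgs⟩ := formHeight_exists (b := v) hP
    rw [coeff_map] at hm hgs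
    rw [hgs]
    have hm' : m ∈ P.support := by
      rw [mem_support_iff]
      intro h0
      rw [h0, map_zero] at hm
      exact hm rfl
    exact le_trans (le_max_right _ _) (Finset.single_le_sum hnn hm')

theorem exists_gs_bound (hK : IsFunctionField k K) (P : MvPolynomial (Fin 3) K) :
    ∃ C : ℤ, 0 ≤ C ∧ ∀ (L : Type) [Field L] [Algebra k L] [Algebra K L] [IsScalarTower k K L]
      [FiniteDimensional K L],
      (Function.support fun v : Place k L =>
        max 0 (WithZero.log (gs v (map (algebraMap K L) P)))).Finite ∧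
      ∑ᶠ v : Place k L, max 0 (WithZero.log (gs v (map (algebraMap K L) P))) ≤
        C * (Module.finrank K L : ℤ) := by
  refine ⟨∑ m ∈ P.support, ∑ᶠ b : Place k K, max 0 (WithZero.log (b.val (P.coeff m))),
    Finset.sum_nonneg fun m _ => finsum_nonneg fun b => le_max_left _ _, ?_⟩
  intro L _ _ _ _ _
  have hfin : ∀ m ∈ P.support, (Function.support fun v : Place k L =>
      max 0 (WithZero.log (v.val (algebraMap K L (P.coeff m))))).Finite :=
    fun m _ => (finsum_pos_log L hK (P.coeff m)).1
  have hU : (⋃ m ∈ P.support, Function.support fun v : Place k L =>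
      max 0 (WithZero.log (v.val (algebraMap K L (P.coeff m))))).Finite :=
    Set.Finite.biUnion P.support.finite_toSet hfin
  have hsub : ∀ f : Place k L → ℤ, (∀ v, 0 ≤ f v) → (∀ v, f v ≤
      ∑ m ∈ P.support, max 0 (WithZero.log (v.val (algebraMap K L (P.coeff m))))) →
      (Function.support f).Finite := by
    intro f hf0 hf
    refine hU.subset ?_
    intro v hv
    rw [Function.mem_support] at hv
    have h1 : 0 < ∑ m ∈ P.support, max 0 (WithZero.log (v.val (algebraMap K L (P.coeff m)))) :=
      lt_of_lt_of_le (lt_of_le_of_ne (hf0 v) (Ne.symm hv)) (hf v)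
    obtain ⟨m, hm, hne⟩ := Finset.exists_ne_zero_of_sum_ne_zero h1.ne'
    exact Set.mem_biUnion hm hne
  have h1 := hsub _ (fun v => le_max_left _ _) (fun v => scaleP_log_gs_le v P)
  refine ⟨h1, ?_⟩
  have h2 := hsub _ (fun v => Finset.sum_nonneg fun m _ => le_max_left _ _) (fun v => le_rfl)
  calc ∑ᶠ v : Place k L, max 0 (WithZero.log (gs v (map (algebraMap K L) P)))
      ≤ ∑ᶠ v : Place k L, ∑ m ∈ P.support,
          max 0 (WithZero.log (v.val (algebraMap K L (P.coeff m)))) :=
        finsum_le_finsum' h1 h2 fun v => scaleP_log_gs_le v P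
    _ = ∑ m ∈ P.support, ∑ᶠ v : Place k L,
          max 0 (WithZero.log (v.val (algebraMap K L (P.coeff m)))) := finsum_sum_comm _ _ hfin
    _ = ∑ m ∈ P.support, (∑ᶠ b : Place k K, max 0 (WithZero.log (b.val (P.coeff m)))) *
          (Module.finrank K L : ℤ) := by
        refine Finset.sum_congr rfl fun m _ => ?_
        rw [(finsum_pos_log L hK (P.coeff m)).2, mul_comm]
    _ = _ := by rw [Finset.sum_mul]

end Pool.Agent.Helper89.TC
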