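import Pool.Agent.Helper89.TC.Contr
import Pool.Agent.Helper63.TS.Trace

/-!
# The normalised sequence
-/

set_option autoImplicit false

namespace Pool.Agent.Helper89.TC

open MvPolynomial
open Pool.Agent.Helper16 (Place IsFunctionField)
open Pool.Agent.Helper36 (step iter)
open Pool.Agent.Helper30.TP
open Pool.Agent.Helper63.TK
open Pool.Agent.Helper63.TS

variable {k K : Type} [Field k] [IsAlgClosed k] [CharZero k] [Field K] [Algebra k K]

omit [IsAlgClosed k] [CharZero k] in
theorem Seq_int {b : Place k K} {a : K} {c : k} (h : b.val (a - algebraMap k K c) < 1) :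
    b.val a ≤ 1 := by
  have h1 : a = (a - algebraMap k K c) + algebraMap k K c := by ring
  rw [h1]
  exact (b.val.map_add _ _).trans (max_le h.le (b.val_algebraMap_le _))

omit [IsAlgClosed k] [CharZero k] in
theorem Seq_mul {b : Place k K} {a a' : K} {c c' : k} (h : b.val (a - algebraMap k K c) < 1)
    (h' : b.val (a' - algebraMap k K c') < 1) :
    b.val (a * a' - algebraMap k K (c * c')) < 1 := by
  have h1 : a * a' - algebraMap k K (c * c') =
      (a - algebraMap k K c) * a' + (a' - algebraMap k K c') * algebraMap k K c := by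
    rw [map_mul]; ring
  rw [h1]
  refine b.val.map_add_lt ?_ ?_
  · rw [map_mul]
    exact mul_lt_one_of_lt_of_le h (Seq_int h')
  · rw [map_mul]
    exact mul_lt_one_of_lt_of_le h' (b.val_algebraMap_le _)

omit [IsAlgClosed k] [CharZero k] in
theorem Seq_sub {b : Place k K} {a a' : K} {c c' : k} (h : b.val (a - algebraMap k K c) < 1)
    (h' : b.val (a' - algebraMap k K c') < 1) :
    b.val (a - a' - algebraMap k K (c - c')) < 1 := by
  have h1 : a - a' - algebraMap k K (c - c') =
      (a - algebraMap k K c) - (a' - algebraMap k K c') := by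
    rw [map_sub]; ring
  rw [h1]
  exact b.val.map_sub_lt h h'

omit [IsAlgClosed k] [CharZero k] in
theorem Seq_eq_zero {b : Place k K} {c : k} (h : b.val (0 - algebraMap k K c) < 1) : c = 0 := by
  by_contra hc
  rw [zero_sub, Valuation.map_neg, b.triv c hc] at h
  exact lt_irrefl _ h

/-- The adjugate of the derivative reduces. -/
theorem adj_red {d : ℕ} {b : Place k K} {F : Fin 3 → MvPolynomial (Fin 3) K}
    {f : Fin 3 → MvPolynomial (Fin 3) k} (hF : ∀ i, (F i).IsHomogeneous d)
    (hf : GoodRed d b F f) {y : Fin 3 → K} {z : Fin 3 → k} (hy : Red b y z) {N : ℕ}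
    (hadj : (mult F y N).adjugate = 0) : (mult f z N).adjugate = 0 := by
  obtain ⟨hz, c, hc, h1⟩ := hy
  obtain ⟨e, he, h2⟩ := Trace_mult_smul hF hc y N
  have h3 : (mult F (c • y) N).adjugate = 0 := by
    rw [h2, Matrix.adjugate_smul, hadj, smul_zero]
  have h4 : ∀ i j, b.val (mult F (c • y) N i j - algebraMap k K (mult f z N i j)) < 1 := by
    intro i j
    have h5 := ((redP_itF hf.red N i).pderiv j).eval (u := c • y) (z := z) h1
    rwa [pderiv_itF, pderiv_itF] at h5
  generalize mult F (c • y) N = A at *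
  generalize mult f z N = B at *
  rw [Matrix.adjugate_fin_three] at h3
  have h00 := congrFun (congrFun h3 0) 0
  have h01 := congrFun (congrFun h3 0) 1
  have h02 := congrFun (congrFun h3 0) 2
  have h10 := congrFun (congrFun h3 1) 0
  have h11 := congrFun (congrFun h3 1) 1
  have h12 := congrFun (congrFun h3 1) 2
  have h20 := congrFun (congrFun h3 2) 0
  have h21 := congrFun (congrFun h3 2) 1
  have h22 := congrFun (congrFun h3 2) 2
  simp only [Matrix.of_apply, Matrix.cons_val_zero, Matrix.cons_val_one, Matrix.cons_val,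
    Matrix.zero_apply] at h00 h01 h02 h10 h11 h12 h20 h21 h22
  have key : ∀ p q r s p' q' r' s' : Fin 3, A p q * A r s - A p' q' * A r' s' = 0 →
      B p q * B r s - B p' q' * B r' s' = 0 := by
    intro p q r s p' q' r' s' h
    have h6 := Seq_sub (Seq_mul (h4 p q) (h4 r s)) (Seq_mul (h4 p' q') (h4 r' s'))
    rw [h] at h6
    exact Seq_eq_zero h6
  have key' : ∀ p q r s p' q' r' s' : Fin 3, -(A p q * A r s) + A p' q' * A r' s' = 0 →
      -(B p q * B r s) + B p' q' * B r' s' = 0 := by
    intro p q r s p' q' r' s' h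
    have h6 := key p' q' r' s' p q r s (by linear_combination h)
    linear_combination h6
  rw [Matrix.adjugate_fin_three]
  ext i j
  fin_cases i <;> fin_cases j <;>
    simp only [Fin.zero_eta, Fin.mk_one, Fin.reduceFinMk, Matrix.of_apply, Matrix.cons_val_zero,
      Matrix.cons_val_one, Matrix.cons_val, Matrix.zero_apply]
  · exact key _ _ _ _ _ _ _ _ h00
  · exact key' _ _ _ _ _ _ _ _ h01
  · exact key _ _ _ _ _ _ _ _ h02
  · exact key' _ _ _ _ _ _ _ _ h10
  · exact key _ _ _ _ _ _ _ _ h11
  · exact key' _ _ _ _ _ _ _ _ h12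
  · exact key _ _ _ _ _ _ _ _ h20
  · exact key' _ _ _ _ _ _ _ _ h21
  · exact key _ _ _ _ _ _ _ _ h22

theorem exists_seq (hK : IsFunctionField k K) {d : ℕ} {b : Place k K}
    {F : Fin 3 → MvPolynomial (Fin 3) K} (hF : ∀ i, (F i).IsHomogeneous d)
    (hb : Good d b F) {x : Fin 3 → K} (hx : ∀ n, iter F x n ≠ 0)
    (hdist : ∀ n n', n ≠ n' → ¬ PEq (iter F x n) (iter F x n')) {i N : ℕ} (hN : 0 < N)
    (hadj : (mult F (iter F x i) N).adjugate = 0)
    (hcl : 0 < cl b (iter F x i) (iter F x (i + N))) :
    ∃ (p : Fin 3) (u : ℕ → Fin 3 → K),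
      NSeq b F x i N (cl b (iter F x i) (iter F x (i + N))) p u := by
  classical
  obtain ⟨f, hf⟩ := hb
  -- the reduction, scaled
  obtain ⟨z, p, hzp, hred⟩ : ∃ (z : Fin 3 → k) (p : Fin 3), z p = 1 ∧ Red b (iter F x i) z := by
    obtain ⟨z, hz, c, hc, h1⟩ := exists_red hK b (iter F x i) (hx i)
    obtain ⟨p, hp⟩ : ∃ p, z p ≠ 0 := by
      by_contra hcon
      push Not at hcon
      exact hz (funext hcon)
    refine ⟨(z p)⁻¹ • z, p, ?_, ?_, algebraMap k K (z p)⁻¹ * c, ?_, ?_⟩
    · rw [Pi.smul_apply, smul_eq_mul, inv_mul_cancel₀ hp]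
    · exact smul_ne_zero (inv_ne_zero hp) hz
    · refine mul_ne_zero ?_ hc
      rw [Ne, map_eq_zero]
      exact inv_ne_zero hp
    · intro a
      have h2 : algebraMap k K (z p)⁻¹ * c * iter F x i a - algebraMap k K (((z p)⁻¹ • z) a) =
          algebraMap k K (z p)⁻¹ * (c * iter F x i a - algebraMap k K (z a)) := by
        rw [Pi.smul_apply, smul_eq_mul, map_mul]; ring
      rw [h2, map_mul, b.triv _ (inv_ne_zero hp), one_mul]
      exact h1 a
  have hadj' := adj_red hF hf hred hadj
  have hadd : ∀ j, iter F x (i + N * (j + 1)) = iter F (iter F x (i + N * j)) N := by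
    intro j
    rw [← Pool.Agent.Helper36.iter_add]
    congr 1
    ring
  -- the reduction is periodic
  obtain ⟨γ, hγ, hper⟩ : PEq z (iter f z N) := by
    refine peq_of_cl_pos (hx i) (hx (i + N)) (hdist i (i + N) (by omega)) hcl hred ?_
    have h1 := hf.iter hF hred N
    have h2 : iter F x (i + N) = iter F (iter F x i) N := by
      rw [← Pool.Agent.Helper36.iter_add]
      congr 1
      ring
    rw [h2]
    exact h1
  -- the normalised sequence
  set u : ℕ → Fin 3 → K := fun j => (iter F x (i + N * j) p)⁻¹ • iter F x (i + N * j) with hu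
  -- reduction of all the members
  have hmain : ∀ j, iter F x (i + N * j) p ≠ 0 ∧
      ∀ a, b.val (u j a - algebraMap k K (z a)) < 1 := by
    intro j
    induction j with
    | zero =>
      obtain ⟨hz, c, hc, h1⟩ := hred
      have h2 : b.val (c * iter F x i p) = 1 := by
        have h3 := h1 p
        rw [hzp, map_one] at h3
        have h4 : c * iter F x i p = 1 + (c * iter F x i p - 1) := by ring
        rw [h4]
        exact b.val.map_one_add_of_lt h3
      have h3 : c * iter F x i p ≠ 0 := by
        intro h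
        rw [h, map_zero] at h2
        exact zero_ne_one h2
      have h4 : iter F x i p ≠ 0 := right_ne_zero_of_mul h3
      refine ⟨by rw [Nat.mul_zero, Nat.add_zero]; exact h4, fun a => ?_⟩
      have h5 : u 0 a - algebraMap k K (z a) =
          ((c * iter F x i a - algebraMap k K (z a)) -
            algebraMap k K (z a) * (c * iter F x i p - algebraMap k K (z p))) *
            (c * iter F x i p)⁻¹ := by
        rw [hu]
        simp only [Nat.mul_zero, Nat.add_zero, Pi.smul_apply, smul_eq_mul, hzp, map_one]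
        field_simp
        ring
      rw [h5, map_mul, map_inv₀, h2, inv_one, mul_one]
      refine b.val.map_sub_lt (h1 a) ?_
      rw [map_mul, mul_comm]
      exact mul_lt_one_of_lt_of_le (h1 p) (b.val_algebraMap_le _)
    | succ j ih =>
      obtain ⟨h1, h2⟩ := ih
      obtain ⟨h3, h4⟩ := contr_red hF hf hzp hper h2
      obtain ⟨c, hc, h5⟩ := Trace_iter_smul hF (inv_ne_zero h1) (iter F x (i + N * j)) N
      have h6 : iter F (u j) N = c • iter F x (i + N * (j + 1)) := by
        rw [hadd j]; exact h5
      have h7 : iter F x (i + N * (j + 1)) p ≠ 0 := by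
        intro h
        rw [h6, Pi.smul_apply, h, smul_zero, map_zero] at h3
        exact zero_ne_one h3
      refine ⟨h7, fun a => ?_⟩
      have h8 := h4 a
      have h9 : u (j + 1) a = iter F (u j) N a / iter F (u j) N p := by
        rw [h6]
        simp only [hu, Pi.smul_apply, smul_eq_mul]
        field_simp
      rw [h9]
      exact h8
  have hstep : ∀ j a, u (j + 1) a = iter F (u j) N a / iter F (u j) N p := by
    intro j a
    obtain ⟨h1, -⟩ := hmain j
    obtain ⟨h7, -⟩ := hmain (j + 1)
    obtain ⟨c, hc, h5⟩ := Trace_iter_smul hF (inv_ne_zero h1) (iter F x (i + N * j)) N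
    have h6 : iter F (u j) N = c • iter F x (i + N * (j + 1)) := by
      rw [hadd j]; exact h5
    rw [h6]
    simp only [hu, Pi.smul_apply, smul_eq_mul]
    field_simp
  have hone : ∀ j, u j p = 1 := by
    intro j
    simp only [hu, Pi.smul_apply, smul_eq_mul]
    exact inv_mul_cancel₀ (hmain j).1
  have hint : ∀ j a, b.val (u j a) ≤ 1 := fun j a => Seq_int ((hmain j).2 a)
  have hnrm : ∀ j, nrm b (iter F x (i + N * j)) = b.val (iter F x (i + N * j) p) := by
    intro j
    refine le_antisymm (nrm_le fun a => ?_) (val_le_nrm b _ p)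
    have h1 := hint j a
    have h2 : iter F x (i + N * j) a = iter F x (i + N * j) p * u j a := by
      simp only [hu, Pi.smul_apply, smul_eq_mul]
      rw [mul_inv_cancel_left₀ (hmain j).1]
    rw [h2, map_mul]
    exact mul_le_of_le_one_right' h1
  refine ⟨p, u, hone, hint, fun j => ⟨_, inv_ne_zero (hmain j).1, rfl⟩, ?_⟩
  intro j
  induction j with
  | zero =>
    intro a
    have e0 : i + N * 0 = i := by ring
    have e1 : i + N * (0 + 1) = i + N := by ring
    have hp0 := (hmain 0).1
    have hp1 := (hmain (0 + 1)).1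
    have hn0 := hnrm 0
    have hn1 := hnrm (0 + 1)
    rw [e0] at hp0 hn0
    rw [e1] at hp1 hn1
    have h1 : u (0 + 1) a - u 0 a =
        (iter F x i p * iter F x (i + N) a - iter F x i a * iter F x (i + N) p) *
          (iter F x i p * iter F x (i + N) p)⁻¹ := by
      simp only [hu, Pi.smul_apply, smul_eq_mul, e0, e1]
      field_simp
    have hcr : nrm b (crossProduct (iter F x i) (iter F x (i + N))) ≠ 0 :=
      nrm_ne_zero (cross_ne_zero (hx i) (hx (i + N)) (hdist i (i + N) (by omega)))
    have h2 : WithZero.exp (-(cl b (iter F x i) (iter F x (i + N)) + ((0 : ℕ) : ℤ))) =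
        nrm b (crossProduct (iter F x i) (iter F x (i + N))) *
          (nrm b (iter F x i) * nrm b (iter F x (i + N)))⁻¹ := by
      have hne0 := nrm_ne_zero (b := b) (hx i)
      have hne1 := nrm_ne_zero (b := b) (hx (i + N))
      rw [← WithZero.exp_log (mul_ne_zero hcr (inv_ne_zero (mul_ne_zero hne0 hne1)))]
      congr 1
      rw [WithZero.log_mul hcr (inv_ne_zero (mul_ne_zero hne0 hne1)), WithZero.log_inv,
        WithZero.log_mul hne0 hne1]
      unfold cl
      push_cast
      ring
    rw [h2, h1, map_mul, map_inv₀, map_mul, hn0, hn1]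
    exact mul_le_mul_left (Cl_val_pq b _ _ p a) _
  | succ j ih =>
    have h1 := contr hF hf hzp hper hadj' (hmain (j + 1)).2 (hmain j).2 (hone (j + 1)) (hone j)
      (m := cl b (iter F x i) (iter F x (i + N)) + j) (by omega) ih
    intro a
    rw [hstep (j + 1) a, hstep j a]
    have h2 := h1 a
    have h3 : -(cl b (iter F x i) (iter F x (i + N)) + (j : ℤ) + 1) =
        -(cl b (iter F x i) (iter F x (i + N)) + ((j + 1 : ℕ) : ℤ)) := by
      push_cast; ring
    rw [h3] at h2
    exact h2

end Pool.Agent.Helper89.TC
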