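import Pool.Agent.Helper89.TC.Local
import Pool.Agent.Helper89.TC.Descend
import Pool.Agent.Helper89.TC.Bound
import Pool.Agent.Helper89.TC.FinB

/-!
# The upper bound for the contacts
-/

set_option autoImplicit false

namespace Pool.Agent.Helper89.TC

open MvPolynomial
open Pool.Agent.Helper16 (Place IsFunctionField)
open Pool.Agent.Helper36 (step iter)
open Pool.Agent.Helper30.TP
open Pool.Agent.Helper63.TK
open Pool.Agent.Helper63.TS

section

variable {K : Type} [Field K]

theorem UpperC_aeval (F : Fin 3 → MvPolynomial (Fin 3) K) (P : MvPolynomial (Fin 3) K)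
    {L : Type} [Field L] [Algebra K L] (y : Fin 3 → L) (N : ℕ) :
    aeval y ((cmp F)^[N] P) = aeval (iter F y N) P := by
  have h1 : ∀ (Q : MvPolynomial (Fin 3) K) (z : Fin 3 → L),
      aeval z (cmp F Q) = aeval (step F z) Q := by
    intro Q z
    unfold Pool.Agent.Helper63.TS.cmp
    rw [comp_aeval_apply]
    rfl
  induction N generalizing P with
  | zero => rfl
  | succ N ih =>
    rw [Function.iterate_succ_apply, ih, h1, Pool.Agent.Helper36.iter_succ]

theorem UpperC_inc_iter (F : Fin 3 → MvPolynomial (Fin 3) K) {L : Type} [Field L] [Algebra K L]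
    (x : Fin 3 → K) (N : ℕ) : iter F (inc L x) N = inc L (iter F x N) :=
  Pool.Agent.Helper36.iter_map F (Algebra.ofId K L) x N

theorem UpperC_inc_ne {L : Type} [Field L] [Algebra K L] {x : Fin 3 → K} (hx : x ≠ 0) :
    inc L x ≠ 0 := by
  intro h0
  refine hx (funext fun a => ?_)
  have h1 : algebraMap K L (x a) = 0 := congrFun h0 a
  rw [← map_zero (algebraMap K L)] at h1
  exact (algebraMap K L).injective h1

/-- Proportionality descends. -/
theorem UpperC_peq {L : Type} [Field L] [Algebra K L] {x z : Fin 3 → K} (hx : x ≠ 0)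
    (hz : z ≠ 0) {t : L} (h : inc L z = t • inc L x) : PEq x z := by
  obtain ⟨a, ha⟩ := Function.ne_iff.1 hx
  have ha' : x a ≠ 0 := ha
  have ht : t = algebraMap K L (z a / x a) := by
    have h1 : algebraMap K L (z a) = t * algebraMap K L (x a) := congrFun h a
    rw [map_div₀, h1, mul_div_cancel_right₀]
    exact (map_ne_zero _).2 ha'
  have hz' : z = (z a / x a) • x := by
    funext c
    have h1 : algebraMap K L (z c) = t * algebraMap K L (x c) := congrFun h c
    rw [ht, ← map_mul] at h1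
    exact (algebraMap K L).injective h1
  refine ⟨z a / x a, ?_, hz'⟩
  intro h0
  rw [h0, zero_smul] at hz'
  exact hz hz'

end

variable {k K : Type} [Field k] [IsAlgClosed k] [CharZero k] [Field K] [Algebra k K] [Algebra K ℂ]

/-- The other places. -/
theorem upper_c (hK : IsFunctionField k K) {d : ℕ} {F : Fin 3 → MvPolynomial (Fin 3) K}
    (hF : IsEndo d fun i => map (algebraMap K ℂ) (F i)) {x : Fin 3 → K} (hx : x ≠ 0)
    (hunb : ∀ B : ℤ, ∃ n, B < ht k (iter F x n)) {h : MvPolynomial (Fin 3) K} {D : ℕ}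
    (hh : h.IsHomogeneous D) (hirr : Irreducible h) {i l : ℕ}
    (hnd : ¬ h ∣ (cmp F)^[l] h) :
    ∃ C₅ : ℤ, 0 ≤ C₅ ∧ ∀ (N : ℕ) (B₁ : Finset (Place k K)), 0 < N →
      (∀ b ∈ B₁, ∃ (K' : Type) (_ : Field K') (_ : Algebra k K') (_ : Algebra K K')
          (_ : IsScalarTower k K K') (b' : Place k K') (w : Fin 3 → K'),
          w ≠ 0 ∧ aeval w h = 0 ∧ aeval (iter F w l) h = 0 ∧ Est b b' F h D x i N w) →
      ∑ b ∈ B₁, cl b (iter F x i) (iter F x (i + N)) ≤ C₅ := by
  classical
  have hhom : ∀ i, (F i).IsHomogeneous d := fun i => homog_of_endo hF i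
  have hψ : ((cmp F)^[l] h).IsHomogeneous (d ^ l * D) := cmp_iter_hom hhom hh l
  obtain ⟨s, A, -, hA⟩ := exists_points (k := k) hh hψ hirr hnd
  have hxn : ∀ n, iter F x n ≠ 0 := iter_ne_zeroK hF hx
  set c : Fin s → ℤ := fun j => if PEq (inc (A j).L (iter F x i)) (A j).y then 0 else
    ∑ᶠ v : Place k (A j).L, cl v (inc (A j).L (iter F x i)) (A j).y with hc
  have hc0 : ∀ j, 0 ≤ c j := by
    intro j
    rw [hc]
    dsimp only
    split_ifs with hP
    · exact le_rfl
    · exact finsum_nonneg fun v => cl_nonneg v (UpperC_inc_ne (hxn i)) (A j).ne hP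
  refine ⟨∑ j, c j, Finset.sum_nonneg fun j _ => hc0 j, ?_⟩
  intro N B₁ hN hB
  -- the index of a place
  have hidx : ∀ b : {b // b ∈ B₁}, ∃ (j : Fin s) (v : Place k (A j).L),
      Est b.1 v F h D x i N (A j).y := by
    rintro ⟨b, hb⟩
    obtain ⟨K', fK, ak, aK, tow, b', w, hw0, hw1, hw2, hE⟩ := hB b hb
    obtain ⟨j, σ, c', hc', hw⟩ := hA K' w hw0 hw1 (by rw [UpperC_aeval]; exact hw2)
    obtain ⟨v, hv⟩ := Est.descend hhom hh hxn (iter_ne_zeroL hF hw0) hE σ hc' hw
    exact ⟨j, v, hv⟩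
  choose J hJ using hidx
  rw [← Finset.sum_attach B₁, ← Finset.sum_fiberwise B₁.attach J]
  refine Finset.sum_le_sum fun j _ => ?_
  set Bj : Finset (Place k K) := (B₁.attach.filter fun b => J b = j).map
    (Function.Embedding.subtype _) with hBj
  have hsum : ∑ b ∈ B₁.attach with J b = j, cl b.1 (iter F x i) (iter F x (i + N)) =
      ∑ b ∈ Bj, cl b (iter F x i) (iter F x (i + N)) := by
    rw [hBj, Finset.sum_map]
    rfl
  rw [hsum]
  have hEst : ∀ b ∈ Bj, ∃ v : Place k (A j).L, Est b v F h D x i N (A j).y := by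
    intro b hb
    rw [hBj, Finset.mem_map] at hb
    obtain ⟨b₁, hb₁, hbb⟩ := hb
    rw [Finset.mem_filter] at hb₁
    obtain ⟨v, hv⟩ := hJ b₁
    rw [← hbb]
    have h1 := hb₁.2
    subst h1
    exact ⟨v, hv⟩
  rcases Bj.eq_empty_or_nonempty with hem | ⟨b₀, hb₀⟩
  · rw [hem, Finset.sum_empty]
    exact hc0 j
  obtain ⟨v₀, hv₀⟩ := hEst b₀ hb₀
  -- the point is not on the orbit
  have hne : ¬ PEq (inc (A j).L (iter F x i)) (A j).y := by
    rintro ⟨t, ht, hty⟩
    obtain ⟨γ, hγ⟩ := hv₀.per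
    rw [hty, iter_smulL hhom, UpperC_inc_iter, ← Pool.Agent.Helper36.iter_add, smul_smul,
      add_comm N i] at hγ
    have ht' : t ^ d ^ N ≠ 0 := pow_ne_zero _ ht
    have h1 : inc (A j).L (iter F x (i + N)) =
        ((t ^ d ^ N)⁻¹ * (γ * t)) • inc (A j).L (iter F x i) := by
      rw [← smul_smul, ← hγ, smul_smul, inv_mul_cancel₀ ht', one_smul]
    exact distinct_of_unbounded hK hF hx hunb i (i + N) (by omega)
      (UpperC_peq (hxn i) (hxn (i + N)) h1)
  have hcj : c j = ∑ᶠ v : Place k (A j).L, cl v (inc (A j).L (iter F x i)) (A j).y := by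
    rw [hc]
    dsimp only
    rw [if_neg hne]
  rw [hcj]
  have : Nonempty (Place k (A j).L) := ⟨v₀⟩
  choose! vb hvb using hEst
  exact sum_le_finsum Bj _ vb (fun b hb a => (hvb b hb).ext a)
    (fun v => cl v (inc (A j).L (iter F x i)) (A j).y)
    (fun v => cl_nonneg v (UpperC_inc_ne (hxn i)) (A j).ne hne)
    (cl_support (isFunctionField_of_finite (A j).L hK) (UpperC_inc_ne (hxn i)) (A j).ne hne)
    (fun b hb => (hvb b hb).con hne)

end Pool.Agent.Helper89.TC
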