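import Pool.Agent.Helper89.TC.UpperA
import Pool.Agent.Helper89.TC.UpperC

/-!
# The upper bound for the contacts
-/

set_option autoImplicit false

namespace Pool.Agent.Helper89.TC

open MvPolynomial
open Pool.Agent.Helper16 (Place IsFunctionField)
open Pool.Agent.Helper36 (step iter)
open Pool.Agent.Helper30.TP
open Pool.Agent.Helper63.TK
open Pool.Agent.Helper63.TS

variable {k K : Type} [Field k] [IsAlgClosed k] [CharZero k] [Field K] [Algebra k K] [Algebra K ℂ]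

theorem upper (hK : IsFunctionField k K) {d : ℕ} {F : Fin 3 → MvPolynomial (Fin 3) K}
    (hF : IsEndo d fun i => map (algebraMap K ℂ) (F i)) {x : Fin 3 → K} (hx : x ≠ 0)
    (hunb : ∀ B : ℤ, ∃ n, B < ht k (iter F x n)) {h : MvPolynomial (Fin 3) K} {D : ℕ}
    (hh : h.IsHomogeneous D) (hirr : Irreducible h)
    (hnd : ∀ l, 0 < l → ¬ h ∣ (cmp F)^[l] h)
    (hinf : {n | eval (iter F x n) h = 0}.Infinite) :
    ∃ C₆ : ℤ, 0 ≤ C₆ ∧ ∀ i, eval (iter F x i) h = 0 → ∃ C₅ : ℤ, 0 ≤ C₅ ∧ ∀ n, i < n →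
      (mult F (iter F x i) (n - i)).adjugate = 0 → ∀ B : Finset (Place k K),
      (∀ b ∈ B, Good d b F ∧ gs b h = 1) →
      ∑ b ∈ B, cl b (iter F x i) (iter F x n) ≤ C₆ * (d : ℤ) ^ (n - i) + C₅ := by
  classical
  obtain ⟨C₆, hC₆, h6⟩ := upper_ab hK hF hx hunb hh hirr hnd hinf
  refine ⟨C₆, hC₆, fun i hi => ?_⟩
  obtain ⟨m, hm, him⟩ := hinf.exists_gt i
  obtain ⟨l, hl, rfl⟩ : ∃ l, 0 < l ∧ m = i + l := ⟨m - i, by omega, by omega⟩
  obtain ⟨C₅, hC₅, h5⟩ := upper_c hK hF hx hunb hh hirr (i := i) (hnd l hl)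
  refine ⟨C₅, hC₅, fun n hn hadj B hB => ?_⟩
  obtain ⟨N, hN, rfl⟩ : ∃ N, 0 < N ∧ n = i + N := ⟨n - i, by omega, by omega⟩
  rw [Nat.add_sub_cancel_left] at hadj ⊢
  set ρ : Place k K → ℤ := fun b => cl b (iter F x i) (iter F x (i + N)) with hρ
  obtain ⟨B₁, B₂, hs, h2, h1⟩ := h6 i l N hi hm hN hadj (B.filter fun b => 0 < ρ b) (by
    intro b hb
    obtain ⟨hb1, hb2⟩ := Finset.mem_filter.1 hb
    exact ⟨(hB b hb1).1, (hB b hb1).2, hb2⟩)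
  have h3 := h5 N B₁ hN h1
  have h4 : ∑ b ∈ B, ρ b ≤ ∑ b ∈ B.filter (fun b => 0 < ρ b), ρ b := by
    rw [Finset.sum_filter]
    refine Finset.sum_le_sum fun b _ => ?_
    split_ifs with hb
    · exact le_rfl
    · exact not_lt.1 hb
  calc ∑ b ∈ B, ρ b ≤ ∑ b ∈ B.filter (fun b => 0 < ρ b), ρ b := h4
    _ = ∑ b ∈ B₁, ρ b + ∑ b ∈ B₂, ρ b := hs
    _ ≤ C₆ * (d : ℤ) ^ N + C₅ := by linarith

end Pool.Agent.Helper89.TC
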