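import Pool.Agent.Helper89.TC.Local
import Pool.Agent.Helper89.TC.Descend
import Pool.Agent.Helper89.TC.Bound
import Pool.Agent.Helper89.TC.FinB

/-!
# The upper bound for the contacts
-/

set_option autoImplicit false

namespace Pool.Agent.Helper89.TC

open MvPolynomial
open Pool.Agent.Helper16 (Place IsFunctionField)
open Pool.Agent.Helper36 (step iter iter_succ' iter_add iter_map)
open Pool.Agent.Helper30.TP
open Pool.Agent.Helper63.TK
open Pool.Agent.Helper63.TS

/-- Evaluation of the composition with an iterate. -/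
theorem aeval_cmp_iterL {K L : Type} [Field K] [Field L] [Algebra K L]
    (F : Fin 3 → MvPolynomial (Fin 3) K) (P : MvPolynomial (Fin 3) K) (N : ℕ) (y : Fin 3 → L) :
    aeval y ((cmp F)^[N] P) = aeval (iter F y N) P := by
  induction N generalizing y with
  | zero => rfl
  | succ N ih =>
    rw [Function.iterate_succ_apply']
    have h1 : ∀ Q : MvPolynomial (Fin 3) K, aeval y (cmp F Q) = aeval (step F y) Q := by
      intro Q
      unfold Pool.Agent.Helper63.TS.cmp
      induction Q using MvPolynomial.induction_on with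
      | C a => simp
      | add p q hp hq => rw [map_add, map_add, map_add, hp, hq]
      | mul_X p i hp =>
        rw [map_mul, map_mul, map_mul, hp, aeval_X, aeval_X]
        rfl
    rw [h1, ih, iter_succ']

/-- A residue class which contains infinitely many returns. -/
theorem exists_class {T : ℕ → Prop} (hT : {n | T n}.Infinite) (i : ℕ) {N : ℕ} (hN : 0 < N) :
    ∃ r, r < N ∧ {j | T (i + r + N * j)}.Infinite := by
  classical
  by_contra hcon
  push Not at hcon
  have hfin : ∀ r, r < N → {j | T (i + r + N * j)}.Finite := fun r hr =>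
    hcon r hr
  apply hT
  have h1 : ({n | T n} : Set ℕ) ⊆ Set.Iio i ∪
      ⋃ r ∈ Finset.range N, (fun j => i + r + N * j) '' {j | T (i + r + N * j)} := by
    intro n hn
    rcases Nat.lt_or_ge n i with h | h
    · exact Or.inl h
    · right
      simp only [Set.mem_iUnion, Set.mem_image]
      refine ⟨(n - i) % N, Finset.mem_range.2 (Nat.mod_lt _ hN), (n - i) / N, ?_, ?_⟩
      · have h2 : i + (n - i) % N + N * ((n - i) / N) = n := by
          have := Nat.mod_add_div (n - i) N
          omega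
        show T (i + (n - i) % N + N * ((n - i) / N))
        rw [h2]
        exact hn
      · have := Nat.mod_add_div (n - i) N
        omega
  refine Set.Finite.subset ?_ h1
  refine (Set.finite_Iio i).union ?_
  refine Set.Finite.biUnion (Finset.finite_toSet _) fun r hr => ?_
  exact (hfin r (Finset.mem_range.1 (Finset.mem_coe.1 hr))).image _

section

variable {k K : Type} [Field k] [IsAlgClosed k] [Field K] [Algebra k K] [Algebra K ℂ]

/-- Summation over the places with the same periodic point. -/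
theorem sum_le_finsum_est {F : Fin 3 → MvPolynomial (Fin 3) K} {h : MvPolynomial (Fin 3) K}
    {D : ℕ} {x : Fin 3 → K} {i N : ℕ} {L : Type} [Field L] [Algebra k L] [Algebra K L]
    {w : Fin 3 → L} (B : Finset (Place k K)) (ρ : Place k K → ℤ)
    (hB : ∀ b ∈ B, ∃ v : Place k L, Est b v F h D x i N w) (G : Place k L → ℤ)
    (hG : ∀ v, 0 ≤ G v) (hs : (Function.support G).Finite)
    (hρ : ∀ b ∈ B, ∀ v : Place k L, Est b v F h D x i N w → ρ b ≤ G v) :
    ∑ b ∈ B, ρ b ≤ ∑ᶠ v : Place k L, G v := by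
  classical
  rcases B.eq_empty_or_nonempty with h0 | ⟨b₀, hb₀⟩
  · rw [h0, Finset.sum_empty]
    exact finsum_nonneg hG
  · obtain ⟨v₀, -⟩ := hB b₀ hb₀
    refine sum_le_finsum B ρ (fun b => if hb : b ∈ B then (hB b hb).choose else v₀) ?_ G hG hs ?_
    · intro b hb a
      simp only [dif_pos hb]
      exact (hB b hb).choose_spec.ext a
    · intro b hb
      simp only [dif_pos hb]
      exact hρ b hb _ (hB b hb).choose_spec

end

variable {k K : Type} [Field k] [IsAlgClosed k] [CharZero k] [Field K] [Algebra k K] [Algebra K ℂ]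

/-- The places at which the periodic point is not on the curve at the time `0` or `l`. -/
theorem upper_ab (hK : IsFunctionField k K) {d : ℕ} {F : Fin 3 → MvPolynomial (Fin 3) K}
    (hF : IsEndo d fun i => map (algebraMap K ℂ) (F i)) {x : Fin 3 → K} (hx : x ≠ 0)
    (hunb : ∀ B : ℤ, ∃ n, B < ht k (iter F x n)) {h : MvPolynomial (Fin 3) K} {D : ℕ}
    (hh : h.IsHomogeneous D) (hirr : Irreducible h)
    (hnd : ∀ l, 0 < l → ¬ h ∣ (cmp F)^[l] h)
    (hinf : {n | eval (iter F x n) h = 0}.Infinite) :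
    ∃ C₆ : ℤ, 0 ≤ C₆ ∧ ∀ i l N : ℕ, eval (iter F x i) h = 0 → eval (iter F x (i + l)) h = 0 →
      0 < N → (mult F (iter F x i) N).adjugate = 0 → ∀ B : Finset (Place k K),
      (∀ b ∈ B, Good d b F ∧ gs b h = 1 ∧ 0 < cl b (iter F x i) (iter F x (i + N))) →
      ∃ B₁ B₂ : Finset (Place k K),
        ∑ b ∈ B, cl b (iter F x i) (iter F x (i + N)) =
          ∑ b ∈ B₁, cl b (iter F x i) (iter F x (i + N)) +
            ∑ b ∈ B₂, cl b (iter F x i) (iter F x (i + N)) ∧
        ∑ b ∈ B₂, cl b (iter F x i) (iter F x (i + N)) ≤ C₆ * (d : ℤ) ^ N ∧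
        ∀ b ∈ B₁, ∃ (K' : Type) (_ : Field K') (_ : Algebra k K') (_ : Algebra K K')
          (_ : IsScalarTower k K K') (b' : Place k K') (w : Fin 3 → K'),
          w ≠ 0 ∧ aeval w h = 0 ∧ aeval (iter F w l) h = 0 ∧ Est b b' F h D x i N w := by
  classical
  have hhom := fun i => homog_of_endo hF i
  have hdist := distinct_of_unbounded hK hF hx hunb
  have hxn : ∀ n, iter F x n ≠ 0 := iter_ne_zeroK hF hx
  obtain ⟨C, hC0, hC⟩ := exists_count_bound hK hF hh
  refine ⟨3 * C * D * D, by positivity, fun i l N hi hil hN hadj B hB => ?_⟩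
  obtain ⟨r, hrN, hr⟩ := exists_class hinf i hN
  obtain ⟨s, A, hsum, hA⟩ := exists_points (k := k) hh (cmp_iter_hom hhom hh N) hirr (hnd N hN)
  -- the periodic points
  set y' : ∀ j, Fin 3 → (A j).L := fun j => iter F (A j).y (N - r) with hy'
  have hy0 : ∀ j, y' j ≠ 0 := fun j => iter_ne_zeroL hF (A j).ne _
  have key : ∀ b ∈ B, ∃ j, ∃ v : Place k (A j).L, Est b v F h D x i N (y' j) := by
    intro b hb
    obtain ⟨hb1, hb2, hb3⟩ := hB b hb
    obtain ⟨K', _, _, _, _, b', w, hw0, hwr, hE⟩ :=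
      local_point hK hhom hb1 hxn hdist hh hb2 hN hadj hr hb3
    obtain ⟨γ, hγ⟩ := hE.per
    have hwl : ∀ n, iter F w n ≠ 0 := fun n => iter_ne_zeroL hF hw0 n
    have hγ0 : γ ≠ 0 := by
      rintro rfl
      rw [zero_smul] at hγ
      exact hwl N hγ
    have h2 : aeval (iter F w r) ((cmp F)^[N] h) = 0 := by
      rw [aeval_cmp_iterL, ← iter_add, Nat.add_comm N r, iter_add, hγ, iter_smulL hhom]
      have h3 : (γ ^ d ^ r • iter F w r) = fun a => γ ^ d ^ r * iter F w r a := rfl
      rw [h3, Pool.Agent.Helper36.aeval_smul_homogeneous hh, hwr, mul_zero]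
    obtain ⟨j, σ, c, hc, hw⟩ := hA K' (iter F w r) (hwl r) hwr h2
    refine ⟨j, ?_⟩
    have h4 : iter F w N = c ^ d ^ (N - r) • fun a => σ (y' j a) := by
      have h5 : N = (N - r) + r := by omega
      conv_lhs => rw [h5]
      rw [iter_add, hw]
      have h6 : (fun a => c * σ ((A j).y a)) = c • fun a => σ ((A j).y a) := rfl
      rw [h6, iter_smulL hhom, iter_map]
    have h7 : w = fun a => (γ⁻¹ * c ^ d ^ (N - r)) * σ (y' j a) := by
      rw [hγ] at h4
      funext a
      have h8 := congrFun h4 a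
      rw [Pi.smul_apply, Pi.smul_apply, smul_eq_mul, smul_eq_mul] at h8
      rw [mul_assoc, ← h8, ← mul_assoc, inv_mul_cancel₀ hγ0, one_mul]
    exact hE.descend hhom hh hxn hwl σ
      (mul_ne_zero (inv_ne_zero hγ0) (pow_ne_zero _ hc)) h7
  set ρ : Place k K → ℤ := fun b => cl b (iter F x i) (iter F x (i + N)) with hρ
  set Q : Place k K → Fin s → Prop := fun b j =>
    (∃ v : Place k (A j).L, Est b v F h D x i N (y' j)) with hQ
  set J₁ : Finset (Fin s) := Finset.univ.filter fun j =>
    ¬ (aeval (y' j) h = 0 ∧ aeval (iter F (y' j) l) h = 0) with hJ₁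
  refine ⟨B.filter fun b => ¬ ∃ j ∈ J₁, Q b j, B.filter fun b => ∃ j ∈ J₁, Q b j, ?_, ?_, ?_⟩
  · rw [add_comm]
    exact (Finset.sum_filter_add_sum_filter_not B (fun b => ∃ j ∈ J₁, Q b j) ρ).symm
  · have hj : ∀ j ∈ J₁, ∑ b ∈ B.filter (fun b => Q b j), ρ b ≤
        C * (Module.finrank K (A j).L : ℤ) := by
      intro j hj
      rw [hJ₁, Finset.mem_filter] at hj
      rcases (B.filter fun b => Q b j).eq_empty_or_nonempty with h0 | ⟨b₀, hb₀⟩
      · rw [h0, Finset.sum_empty]
        positivity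
      obtain ⟨v₀, hv₀⟩ := (Finset.mem_filter.1 hb₀).2
      obtain ⟨γ, hγ⟩ := hv₀.per
      have hex : ∃ m, eval (iter F x (i + m)) h = 0 ∧ aeval (iter F (y' j) m) h ≠ 0 := by
        by_cases h1 : aeval (y' j) h = 0
        · refine ⟨l, hil, fun h2 => hj.2 ⟨h1, h2⟩⟩
        · exact ⟨0, hi, h1⟩
      obtain ⟨m, hm1, hm2⟩ := hex
      obtain ⟨g1, g2, g3⟩ := hC (A j).L (y' j) N γ (hy0 j) hN hγ m hm2
      refine (sum_le_finsum_est (F := F) (h := h) (D := D) (x := x) (i := i) (N := N)
        (w := y' j) _ ρ (fun b hb => (Finset.mem_filter.1 hb).2) _ g2 g1 ?_).trans g3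
      intro b _ v hv
      exact hv.est m hm1 hm2
    have hρ0 : ∀ b ∈ B, 0 ≤ ρ b := fun b hb => (hB b hb).2.2.le
    calc ∑ b ∈ B.filter (fun b => ∃ j ∈ J₁, Q b j), ρ b
        ≤ ∑ b ∈ B.filter (fun b => ∃ j ∈ J₁, Q b j), ∑ j ∈ J₁, (if Q b j then ρ b else 0) := by
          refine Finset.sum_le_sum fun b hb => ?_
          obtain ⟨hbB, j, hjJ, hq⟩ := Finset.mem_filter.1 hb
          have h1 : ρ b = (fun j => if Q b j then ρ b else 0) j := (if_pos hq).symm
          refine h1.trans_le (Finset.single_le_sum (f := fun j => if Q b j then ρ b else 0) ?_ hjJ)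
          intro j' _
          split_ifs
          · exact hρ0 b hbB
          · exact le_rfl
      _ ≤ ∑ b ∈ B, ∑ j ∈ J₁, (if Q b j then ρ b else 0) := by
          refine Finset.sum_le_sum_of_subset_of_nonneg (Finset.filter_subset _ _) ?_
          intro b hb _
          refine Finset.sum_nonneg fun j _ => ?_
          split_ifs
          · exact hρ0 b hb
          · exact le_rfl
      _ = ∑ j ∈ J₁, ∑ b ∈ B.filter (fun b => Q b j), ρ b := by
          rw [Finset.sum_comm]
          exact Finset.sum_congr rfl fun j _ => (Finset.sum_filter _ _).symm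
      _ ≤ ∑ j ∈ J₁, C * (Module.finrank K (A j).L : ℤ) := Finset.sum_le_sum hj
      _ ≤ ∑ j, C * (Module.finrank K (A j).L : ℤ) :=
          Finset.sum_le_sum_of_subset_of_nonneg (Finset.subset_univ _)
            fun j _ _ => by positivity
      _ = C * ((∑ j, Module.finrank K (A j).L : ℕ) : ℤ) := by
          rw [← Finset.mul_sum]
          push_cast
          rfl
      _ ≤ C * ((3 * (D * (d ^ N * D)) : ℕ) : ℤ) :=
          mul_le_mul_of_nonneg_left (by exact_mod_cast hsum) hC0
      _ = 3 * C * D * D * (d : ℤ) ^ N := by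
          push_cast
          ring
  · intro b hb
    obtain ⟨hbB, hn⟩ := Finset.mem_filter.1 hb
    obtain ⟨j, v, hv⟩ := key b hbB
    have hj : j ∉ J₁ := fun h1 => hn ⟨j, h1, v, hv⟩
    rw [hJ₁, Finset.mem_filter, not_and, not_not] at hj
    obtain ⟨h1, h2⟩ := hj (Finset.mem_univ _)
    exact ⟨(A j).L, inferInstance, inferInstance, inferInstance, inferInstance, v, y' j, hy0 j,
      h1, h2, hv⟩

end Pool.Agent.Helper89.TC
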